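import Pool.Agent.LibHU64.A3
import Pool.Agent.LibDP24.H3

/-!
ROW A4 (MEDIUM). From a quadratic form on an abelian group to unit vectors in `ℝ ^ r` (cites A3, LibDP24.H3 as stated).

PLAN. `b R S = (hh (R + S) - hh R - hh S) / 2` is biadditive (Jordan-von Neumann from `par`; `LibDP24/H3.lean` has private lemmas
`H3_add` etc. to copy) and symmetric, `b R R = hh R` (`hh (R + R) = 4 hh R`), `b (m • R) S = m * b R S` for `m : ℤ`.
Matrix `M i j = b (P i) (P j) / √(hh (P i) * hh (P j))`: symmetric, `M i i = 1`, `M i j ^ 2 ≤ 2/5` for `i ≠ j` (`(2 b)² ≤ 8/5 hh hh`).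
(1) `M` is positive semidefinite: `∑ i j, c i * c j * b (P i) (P j) ≥ 0` for INTEGERS `c` (`= hh (∑ c i • P i)`), so for rational `c` (common
denominator), so for real `c` (density of `ℚ ^ n`, continuity: `DenseRange`, `isClosed_Ici.preimage`), so for `M`.
(2) no `r + 1` columns of `M` are linearly independent: if `P ∘ f` satisfies `∑ m a • P (f a) = 0`, `m ≠ 0`, then `∑ a, m a * √(hh (P (f a))) * M i (f a) = 0` for
all `i`. So `M.rank ≤ r` (`Matrix.rank_eq_finrank_span_cols`; a spanning family of a space of dimension `≥ r + 1` contains `r + 1` linearly independent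
members, e.g. `exists_linearIndependent`, `exists_fun_fin_finrank_span_eq`).
(3) spectral theorem `M = U diag(λ) Uᵀ`, `λ ≥ 0`, number of `a` with `λ a ≠ 0` equals `M.rank ≤ r` (`Matrix.IsHermitian.rank_eq_card_non_zero_eigs`); embed
`{a // λ a ≠ 0}` into `Fin r`, `v i (e a) = √(λ a) * U i a`, `0` outside the image: `∑ a, v i a * v j a = M i j`. Apply `packing_vec`.
(Any other way to `r` coordinates is fine, e.g. `Matrix.PosSemidef` gives `M = Bᴴ * B`, orthonormal basis of the span of the columns of `B`.)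
-/

set_option autoImplicit false

open Pool.Agent.LibDP24

namespace Pool.Agent.LibHU64

section
variable {G : Type*} [AddCommGroup G] {hh : G → ℝ}

private noncomputable def A4_b (hh : G → ℝ) (R S : G) : ℝ := (hh (R + S) - hh (R - S)) / 4

private theorem A4_zero (par : ∀ R S, hh (R + S) + hh (R - S) = 2 * hh R + 2 * hh S) : hh 0 = 0 := by
  have h := par 0 0
  rw [add_zero, sub_zero] at h
  linarith

private theorem A4_neg (par : ∀ R S, hh (R + S) + hh (R - S) = 2 * hh R + 2 * hh S) (R : G) :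
    hh (-R) = hh R := by
  have h := par 0 R
  rw [zero_add, zero_sub, A4_zero par] at h
  linarith

private theorem A4_add (par : ∀ R S, hh (R + S) + hh (R - S) = 2 * hh R + 2 * hh S) (R R' S : G) :
    hh (R + R' + S) - hh (R + R' - S) = (hh (R + S) - hh (R - S)) + (hh (R' + S) - hh (R' - S)) := by
  have h1 := par (R + S) R'
  have h2 := par (R - S) R'
  have h3 := par (R' + S) R
  have h4 := par (R' - S) R
  have e1 : R + S + R' = R + R' + S := by abel
  have e2 : R - S + R' = R + R' - S := by abel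
  have e3 : R' + S + R = R + R' + S := by abel
  have e4 : R' - S + R = R + R' - S := by abel
  have e5 : hh (R' + S - R) = hh (R - S - R') := by
    rw [← A4_neg par (R' + S - R)]
    congr 1
    abel
  have e6 : hh (R' - S - R) = hh (R + S - R') := by
    rw [← A4_neg par (R' - S - R)]
    congr 1
    abel
  rw [e1] at h1
  rw [e2] at h2
  rw [e3, e5] at h3
  rw [e4, e6] at h4
  linarith

private theorem A4_symm (par : ∀ R S, hh (R + S) + hh (R - S) = 2 * hh R + 2 * hh S) (R S : G) :
    A4_b hh R S = A4_b hh S R := by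
  unfold A4_b
  rw [add_comm R S, ← A4_neg par (R - S), neg_sub]

private theorem A4_self (par : ∀ R S, hh (R + S) + hh (R - S) = 2 * hh R + 2 * hh S) (R : G) :
    A4_b hh R R = hh R := by
  unfold A4_b
  have h := par R R
  rw [sub_self, A4_zero par] at h ⊢
  linarith

private theorem A4_eq (par : ∀ R S, hh (R + S) + hh (R - S) = 2 * hh R + 2 * hh S) (R S : G) :
    2 * A4_b hh R S = hh (R + S) - hh R - hh S := by
  unfold A4_b
  have h := par R S
  linarith

private theorem A4_sum (par : ∀ R S, hh (R + S) + hh (R - S) = 2 * hh R + 2 * hh S)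
    {ι : Type*} [Fintype ι] (c : ι → ℤ) (Q : ι → G) (S : G) :
    A4_b hh (∑ i, c i • Q i) S = ∑ i, (c i : ℝ) * A4_b hh (Q i) S := by
  let f : G →+ ℝ :=
    { toFun := fun R => A4_b hh R S
      map_zero' := by
        unfold A4_b
        rw [zero_add, zero_sub, A4_neg par, sub_self, zero_div]
      map_add' := fun R R' => by
        unfold A4_b
        rw [A4_add par R R' S]
        ring }
  have h : f (∑ i, c i • Q i) = ∑ i, (c i : ℝ) * f (Q i) := by
    rw [map_sum]
    refine Finset.sum_congr rfl fun i _ => ?_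
    rw [map_zsmul, zsmul_eq_mul]
  exact h

private theorem A4_quad (par : ∀ R S, hh (R + S) + hh (R - S) = 2 * hh R + 2 * hh S)
    {ι : Type*} [Fintype ι] (c : ι → ℤ) (Q : ι → G) :
    hh (∑ i, c i • Q i) = ∑ i, ∑ j, (c i : ℝ) * (c j : ℝ) * A4_b hh (Q i) (Q j) := by
  rw [← A4_self par (∑ i, c i • Q i), A4_sum par]
  refine Finset.sum_congr rfl fun i _ => ?_
  rw [A4_symm par, A4_sum par, Finset.mul_sum]
  refine Finset.sum_congr rfl fun j _ => ?_
  rw [A4_symm par (Q j) (Q i), mul_assoc]

private theorem A4_psd (par : ∀ R S, hh (R + S) + hh (R - S) = 2 * hh R + 2 * hh S)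
    (nonneg : ∀ R, 0 ≤ hh R) {n : ℕ} (P : Fin n → G) (c : Fin n → ℝ) :
    0 ≤ ∑ i, ∑ j, c i * c j * A4_b hh (P i) (P j) := by
  have hd : DenseRange (Pi.map fun (_ : Fin n) (q : ℚ) => (q : ℝ)) :=
    DenseRange.piMap fun _ => Rat.denseRange_cast (𝕜 := ℝ)
  refine DenseRange.induction_on (p := fun c : Fin n → ℝ =>
    0 ≤ ∑ i, ∑ j, c i * c j * A4_b hh (P i) (P j)) hd c ?_ ?_
  · exact isClosed_le continuous_const (by fun_prop)
  · intro q
    obtain ⟨d, hd⟩ := IsLocalization.exist_integer_multiples_of_finite (nonZeroDivisors ℤ) q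
    choose m hm using hd
    have hd0 : ((d : ℤ) : ℝ) ≠ 0 := by exact_mod_cast nonZeroDivisors.ne_zero d.2
    have hq : ∀ i, (q i : ℝ) = (m i : ℝ) / ((d : ℤ) : ℝ) := by
      intro i
      have h1 := hm i
      have h2 : (m i : ℚ) = ((d : ℤ) : ℚ) * q i := by
        simpa [zsmul_eq_mul] using h1
      have h3 : (m i : ℝ) = ((d : ℤ) : ℝ) * (q i : ℝ) := by exact_mod_cast h2
      rw [h3]
      field_simp
    have h := nonneg (∑ i, m i • P i)
    rw [A4_quad par] at h
    have he : ∑ i, ∑ j, (Pi.map (fun (_ : Fin n) (q : ℚ) => (q : ℝ)) q) i *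
        (Pi.map (fun (_ : Fin n) (q : ℚ) => (q : ℝ)) q) j * A4_b hh (P i) (P j) =
        (∑ i, ∑ j, (m i : ℝ) * (m j : ℝ) * A4_b hh (P i) (P j)) / ((d : ℤ) : ℝ) ^ 2 := by
      rw [Finset.sum_div]
      refine Finset.sum_congr rfl fun i _ => ?_
      rw [Finset.sum_div]
      refine Finset.sum_congr rfl fun j _ => ?_
      rw [Pi.map_apply, Pi.map_apply, hq i, hq j]
      field_simp
    show 0 ≤ _
    rw [he]
    exact div_nonneg h (by positivity)

end

open Matrix MatrixOrder in
private theorem A4_gram {n : ℕ} (M : Matrix (Fin n) (Fin n) ℝ) (hM : M.PosSemidef) :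
    ∃ b : Fin n → EuclideanSpace ℝ (Fin n), ∀ i j, inner ℝ (b i) (b j) = M i j := by
  obtain ⟨B, hB⟩ := CStarAlgebra.nonneg_iff_eq_star_mul_self.mp hM.nonneg
  refine ⟨fun i => WithLp.toLp 2 fun k => B k i, fun i j => ?_⟩
  rw [hB, PiLp.inner_apply, Matrix.star_eq_conjTranspose, Matrix.mul_apply]
  refine Finset.sum_congr rfl fun k _ => ?_
  simp [mul_comm]

private theorem A4_coord {n r : ℕ} (b : Fin n → EuclideanSpace ℝ (Fin n))
    (hr : Module.finrank ℝ (Submodule.span ℝ (Set.range b)) ≤ r) :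
    ∃ v : Fin n → Fin r → ℝ, ∀ i j, ∑ a, v i a * v j a = inner ℝ (b i) (b j) := by
  set W := Submodule.span ℝ (Set.range b) with hW
  set d := Module.finrank ℝ W with hd
  let e := stdOrthonormalBasis ℝ W
  let w : Fin n → W := fun i => ⟨b i, Submodule.subset_span ⟨i, rfl⟩⟩
  let u : Fin n → ℕ → ℝ := fun i k => if h : k < d then inner ℝ (e ⟨k, h⟩) (w i) else 0
  refine ⟨fun i a => u i a.1, fun i j => ?_⟩
  have h1 : ∑ a : Fin r, u i a.1 * u j a.1 = ∑ a : Fin d, u i a.1 * u j a.1 := by
    rw [Fin.sum_univ_eq_sum_range (fun k => u i k * u j k) r,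
      Fin.sum_univ_eq_sum_range (fun k => u i k * u j k) d]
    symm
    refine Finset.sum_subset (Finset.range_subset_range.2 hr) fun k _ hk => ?_
    have hk' : ¬ k < d := fun h => hk (Finset.mem_range.2 h)
    simp only [u, dif_neg hk', zero_mul]
  rw [h1]
  have h2 : ∀ a : Fin d, u i a.1 * u j a.1 = inner ℝ (w i) (e a) * inner ℝ (e a) (w j) := by
    intro a
    simp only [u, dif_pos a.2]
    rw [real_inner_comm]
  rw [Finset.sum_congr rfl fun a _ => h2 a]
  exact e.sum_inner_mul_inner (w i) (w j)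

/-- points of rank at most `r` with a positive height as unit vectors of `ℝ ^ r` -/
theorem gram_vec {G : Type*} [AddCommGroup G] {hh : G → ℝ}
    (par : ∀ R S, hh (R + S) + hh (R - S) = 2 * hh R + 2 * hh S) (nonneg : ∀ R, 0 ≤ hh R)
    {r n : ℕ} (P : Fin n → G) (hpos : ∀ i, 0 < hh (P i)) (hrank : RankLe r P) :
    ∃ v : Fin n → Fin r → ℝ, (∀ i, ∑ a, v i a ^ 2 = 1) ∧
      ∀ i j, (hh (P i + P j) - hh (P i) - hh (P j)) ^ 2 =
        4 * hh (P i) * hh (P j) * (∑ a, v i a * v j a) ^ 2 := by
  classical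
  let s : Fin n → ℝ := fun i => √(hh (P i))
  have hs : ∀ i, 0 < s i := fun i => Real.sqrt_pos.2 (hpos i)
  have hss : ∀ i, s i * s i = hh (P i) := fun i => Real.mul_self_sqrt (hpos i).le
  let M : Matrix (Fin n) (Fin n) ℝ := Matrix.of fun i j => A4_b hh (P i) (P j) / (s i * s j)
  have hMv : ∀ i j, M i j = A4_b hh (P i) (P j) / (s i * s j) := fun i j => rfl
  have hM : M.PosSemidef := by
    refine Matrix.PosSemidef.of_dotProduct_mulVec_nonneg ?_ ?_
    · ext i j
      rw [Matrix.conjTranspose_apply, hMv, hMv, A4_symm par (P j) (P i), mul_comm (s j)]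
      simp
    · intro x
      have h := A4_psd par nonneg P fun i => x i / s i
      have he : star x ⬝ᵥ M.mulVec x =
          ∑ i, ∑ j, x i / s i * (x j / s j) * A4_b hh (P i) (P j) := by
        simp only [dotProduct, Matrix.mulVec, Pi.star_apply, star_trivial]
        refine Finset.sum_congr rfl fun i _ => ?_
        rw [Finset.mul_sum]
        refine Finset.sum_congr rfl fun j _ => ?_
        rw [hMv]
        have := (hs i).ne'
        have := (hs j).ne'
        field_simp
      rw [he]
      exact h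
  obtain ⟨b, hb⟩ := A4_gram M hM
  have hrk : Module.finrank ℝ (Submodule.span ℝ (Set.range b)) ≤ r := by
    by_contra hcon
    push Not at hcon
    obtain ⟨f, hf1, -, hf3⟩ := Submodule.exists_fun_fin_finrank_span_eq ℝ (Set.range b)
    choose g hg using hf1
    let F : Fin (r + 1) → Fin n := fun a => g (Fin.castLE hcon a)
    have hli : LinearIndependent ℝ (fun a => b (F a)) := by
      have h1 := hf3.comp (Fin.castLE hcon) (Fin.castLE_injective hcon)
      have h2 : (f ∘ Fin.castLE hcon) = fun a => b (F a) := by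
        funext a
        exact (hg (Fin.castLE hcon a)).symm
      rwa [h2] at h1
    obtain ⟨m, hm1, a0, hm2⟩ := Fintype.not_linearIndependent_iff.1 (hrank F)
    have hz : ∑ a, ((m a : ℝ) * s (F a)) • b (F a) = 0 := by
      rw [← inner_self_eq_zero (𝕜 := ℝ)]
      simp only [sum_inner, inner_sum, real_inner_smul_left, real_inner_smul_right, hb]
      have h1 := A4_quad par m (P ∘ F)
      rw [hm1, A4_zero par] at h1
      rw [h1]
      refine Finset.sum_congr rfl fun a _ => Finset.sum_congr rfl fun c _ => ?_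
      rw [hMv]
      have := (hs (F a)).ne'
      have := (hs (F c)).ne'
      simp only [Function.comp]
      rw [A4_symm par (P (F a)) (P (F c))]
      field_simp
    have h2 := Fintype.linearIndependent_iff.1 hli _ hz a0
    rcases mul_eq_zero.1 h2 with h3 | h3
    · exact hm2 (by exact_mod_cast h3)
    · exact (hs (F a0)).ne' h3
  obtain ⟨v, hv⟩ := A4_coord b hrk
  refine ⟨v, fun i => ?_, fun i j => ?_⟩
  · have h1 := hv i i
    rw [hb, hMv, A4_self par, hss, div_self (hpos i).ne'] at h1
    rw [← h1]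
    exact Finset.sum_congr rfl fun a _ => sq (v i a)
  · rw [hv, hb, hMv]
    rw [← A4_eq par]
    have hp : 0 < s i * s j := mul_pos (hs i) (hs j)
    have hp2 : (s i * s j) ^ 2 = hh (P i) * hh (P j) := by
      rw [← hss i, ← hss j]; ring
    have hpi := (hpos i).ne'
    have hpj := (hpos j).ne'
    rw [div_pow, hp2]
    field_simp
    try ring

theorem packing_group {G : Type*} [AddCommGroup G] {hh : G → ℝ}
    (par : ∀ R S, hh (R + S) + hh (R - S) = 2 * hh R + 2 * hh S) (nonneg : ∀ R, 0 ≤ hh R)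
    {r n : ℕ} (P : Fin n → G) (hpos : ∀ i, 0 < hh (P i))
    (hang : ∀ i j, i ≠ j → (hh (P i + P j) - hh (P i) - hh (P j)) ^ 2 ≤ 8 / 5 * hh (P i) * hh (P j))
    (hrank : RankLe r P) : (n : ℝ) ≤ pk r := by
  obtain ⟨v, hv1, hv⟩ := gram_vec par nonneg P hpos hrank
  refine packing_vec v hv1 fun i j hij => ?_
  have h1 := hang i j hij
  rw [hv i j] at h1
  have h2 : 0 < hh (P i) * hh (P j) := mul_pos (hpos i) (hpos j)
  have h3 : (∑ a, v i a * v j a) ^ 2 * (hh (P i) * hh (P j)) ≤ 2 / 5 * (hh (P i) * hh (P j)) := by linarith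
  exact le_of_mul_le_mul_right h3 h2

end Pool.Agent.LibHU64
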