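import Pool.Agent.LibHU64.A4
import Pool.Agent.LibHU64.B1

/-!
ROW B2 (SHORT). The number of integral points with `log x` in `[X, 13/10 X]` (cites A4, B1 as stated).

PLAN. `n ≤ 1`: `pk_ge`. `n ≥ 2`: every `i` has a `j ≠ i`, so `angle` gives `0 < hh (P i)`; `packing_group`.
-/

set_option autoImplicit false

open WeierstrassCurve Pool.Agent.LibDP24

namespace Pool.Agent.LibHU64

theorem window_count (C₀ : ℝ) (hC₀ : 0 ≤ C₀) : ∃ M₀ : ℝ, 1 ≤ M₀ ∧
    ∀ A B : ℤ, ∀ hh : Pt A B → ℝ, IsCan C₀ hh →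
    ∀ X : ℝ, M₀ * ell A B ≤ X → ∀ (r n : ℕ) (P : Fin n → Pt A B) (x : Fin n → ℤ),
      (∀ i, IsInt (P i) (x i)) → Function.Injective x → RankLe r P →
      (∀ i, 0 < x i) → (∀ i, X ≤ Real.log (x i)) → (∀ i, Real.log (x i) ≤ 13 / 10 * X) →
      (n : ℝ) ≤ pk r := by
  obtain ⟨M₀, hM, hang⟩ := angle C₀ hC₀
  refine ⟨M₀, hM, ?_⟩
  intro A B hh hcan X hX r n P x hint hinj hrank hpos hlo hhi
  rcases Nat.lt_or_ge n 2 with hn | hn
  · have h1 : (n : ℝ) ≤ 1 := by exact_mod_cast Nat.le_of_lt_succ hn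
    have h2 := pk_ge r
    linarith
  · have hne : ∀ i j : Fin n, i ≠ j → x i ≠ x j := fun i j hij h => hij (hinj h)
    refine packing_group hcan.par hcan.nonneg P ?_ ?_ hrank
    · intro i
      obtain ⟨j, hj⟩ : ∃ j : Fin n, i ≠ j := by
        by_contra hcon
        push Not at hcon
        have h0 := hcon ⟨0, by omega⟩
        have h1 := hcon ⟨1, by omega⟩
        have h2 := h0.symm.trans h1
        simp at h2
      exact (hang A B hh hcan (P i) (P j) (x i) (x j) (hint i) (hint j) (hne i j hj) (hpos i) (hpos j)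
        X hX (hlo i) (hlo j) (hhi i) (hhi j)).1
    · intro i j hij
      exact (hang A B hh hcan (P i) (P j) (x i) (x j) (hint i) (hint j) (hne i j hij) (hpos i) (hpos j)
        X hX (hlo i) (hlo j) (hhi i) (hhi j)).2.2

end Pool.Agent.LibHU64
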