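import Pool.Agent.LibHU64.Defs
import Pool.Agent.LibDP24.G1

/-!
ROW C1 (SHORT: a copy of LibDP24/G1.lean with the constants written out). Combinations with small coefficients of large integral points.

PLAN. Copy `Pool/Agent/LibDP24/G1.lean` (its private lemmas `G1_exp`, `G1_const` too) and replace the existential constants by the explicit ones of its
proof: with `C₅ = 2 * Real.log ((N : ℝ) + 1) + c`: `K = 3 * C₅ + 2 * C₀ + 40`. Only the first two claims are needed here (drop the third).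
-/

set_option autoImplicit false

open WeierstrassCurve Pool.Agent.LibDP24

namespace Pool.Agent.LibHU64

private theorem C1_exp (n : ℕ) {t : ℝ} (ht : 1 / 2 ≤ t) : (2.7 : ℝ) ^ n ≤ Real.exp (2 * n * t) := by
  have h1 : (2.7 : ℝ) ≤ Real.exp 1 := by
    have := Real.exp_one_gt_d9
    linarith
  calc (2.7 : ℝ) ^ n ≤ Real.exp 1 ^ n := pow_le_pow_left₀ (by norm_num) h1 n
    _ = Real.exp (n : ℝ) := by rw [← Real.exp_nat_mul, mul_one]
    _ ≤ Real.exp (2 * n * t) := by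
        apply Real.exp_le_exp.2
        have : (0 : ℝ) ≤ n := Nat.cast_nonneg n
        nlinarith

private theorem C1_const {c t : ℝ} (hc : 1 ≤ c) (ht : 1 / 2 ≤ t) : c ≤ Real.exp (2 * Real.log c * t) := by
  have h1 : 0 ≤ Real.log c := Real.log_nonneg hc
  calc c = Real.exp (Real.log c) := (Real.exp_log (by linarith)).symm
    _ ≤ _ := Real.exp_le_exp.2 (by nlinarith)

theorem combo_u (C₀ c : ℝ) (hC₀ : 0 ≤ C₀) (hc : 0 ≤ c) (N : ℕ) :
    ∀ A B : ℤ, ∀ hh : Pt A B → ℝ, IsCan C₀ hh →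
    ∀ (P : Fin N → Pt A B) (x : Fin N → ℤ), (∀ i, IsInt (P i) (x i)) →
      (∀ i, Real.exp ((3 * (2 * Real.log ((N : ℝ) + 1) + c) + 2 * C₀ + 40) * ell A B) ≤ x i) →
    ∀ a : Fin N → ℤ, (∀ i, |(a i : ℝ)| ≤ Real.exp (c * ell A B)) →
      |uu (∑ i, a i • P i) - ∑ i, (a i : ℝ) * uu (P i)| ≤ 1 / 4 * ∑ i, |(a i : ℝ)| * |uu (P i)| ∧
      (IsOfFinAddOrder (∑ i, a i • P i) → ∑ i, a i • P i = 0) := by
  have hN0 : (0 : ℝ) ≤ N := Nat.cast_nonneg N
  obtain ⟨C₅, hC₅⟩ : ∃ C : ℝ, C = 2 * Real.log ((N : ℝ) + 1) + c := ⟨_, rfl⟩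
  have hC₅0 : 0 ≤ C₅ := by
    have h3 := Real.log_nonneg (show (1 : ℝ) ≤ (N : ℝ) + 1 by linarith)
    rw [hC₅]
    positivity
  intro A B hh hcan P x hI hx a hac
  rw [← hC₅] at hx
  have ht := ell_ge A B
  have haa := exp_ell A B
  have haa2 := aa_ge A B
  have hclose := hcan.close
  obtain ⟨t, htt⟩ : ∃ t, t = ell A B := ⟨_, rfl⟩
  rw [← htt] at ht haa hx hac hclose
  obtain ⟨κ, hκ⟩ : ∃ κ, κ = Real.exp ((3 * C₅ + 2 * C₀ + 40) * t) := ⟨_, rfl⟩
  rw [← hκ] at hx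
  obtain ⟨e, he⟩ : ∃ e, e = Real.exp (c * t) := ⟨_, rfl⟩
  rw [← he] at hac
  have he1 : 1 ≤ e := by
    rw [he]
    exact Real.one_le_exp (by nlinarith)
  -- the number of summands
  obtain ⟨n, hn⟩ : ∃ n : ℕ, n = (∑ i, |a i|).toNat + 1 := ⟨_, rfl⟩
  have hsa0 : 0 ≤ ∑ i, |a i| := Finset.sum_nonneg fun i _ => abs_nonneg _
  have hncast : (n : ℤ) = (∑ i, |a i|) + 1 := by
    rw [hn]
    push_cast
    rw [Int.toNat_of_nonneg hsa0]
  have hncastR : (n : ℝ) = (∑ i, |(a i : ℝ)|) + 1 := by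
    have h1 : ((n : ℤ) : ℝ) = (((∑ i, |a i|) + 1 : ℤ) : ℝ) := by rw [hncast]
    push_cast at h1
    exact h1
  have hsum : ∑ i, |a i| ≤ (n : ℤ) := by
    rw [hncast]
    linarith
  have hsumR : ∑ i, |(a i : ℝ)| ≤ n := by
    rw [hncastR]
    linarith
  have hn1 : (1 : ℝ) ≤ n := by
    rw [hncastR]
    have : 0 ≤ ∑ i, |(a i : ℝ)| := Finset.sum_nonneg fun i _ => abs_nonneg _
    linarith
  have hL2 : (n : ℝ) ≤ Real.exp (C₅ * t) := by
    have h1 : ∑ i, |(a i : ℝ)| ≤ N * e := by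
      calc ∑ i, |(a i : ℝ)| ≤ ∑ _i : Fin N, e := Finset.sum_le_sum fun i _ => hac i
        _ = N * e := by
          rw [Finset.sum_const, Finset.card_univ, Fintype.card_fin, nsmul_eq_mul]
    calc (n : ℝ) ≤ ((N : ℝ) + 1) * e := by
          rw [hncastR]
          nlinarith
      _ ≤ Real.exp (2 * Real.log ((N : ℝ) + 1) * t) * Real.exp (c * t) := by
          rw [he]
          exact mul_le_mul_of_nonneg_right (C1_const (by linarith) ht) (Real.exp_pos _).le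
      _ = Real.exp (C₅ * t) := by
          rw [← Real.exp_add, hC₅]
          congr 1
          ring
  -- kappa is large
  have hκ2 : 2 * 10 ^ 6 * aa A B * (n : ℝ) ^ 3 ≤ κ := by
    have h1 : (2 * 10 ^ 6 : ℝ) ≤ Real.exp (32 * t) := by
      have h2 := C1_exp 16 ht
      norm_num at h2
      linarith
    have h3 : (n : ℝ) ^ 3 ≤ Real.exp (C₅ * t) ^ 3 := pow_le_pow_left₀ (by linarith) hL2 3
    calc 2 * 10 ^ 6 * aa A B * (n : ℝ) ^ 3 ≤ Real.exp (32 * t) * Real.exp t * Real.exp (C₅ * t) ^ 3 := by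
          rw [haa]
          gcongr
      _ = Real.exp ((3 * C₅ + 33) * t) := by
          rw [← Real.exp_nat_mul, ← Real.exp_add, ← Real.exp_add]
          congr 1
          push_cast
          ring
      _ ≤ κ := by
          rw [hκ]
          apply Real.exp_le_exp.2
          nlinarith
  have hκ3 : 8 * (n : ℝ) ^ 2 * Real.exp (2 * ((C₀ + 10) * t)) < κ := by
    have h1 : (8 : ℝ) < Real.exp (6 * t) := by
      have h2 := C1_exp 3 ht
      norm_num at h2
      linarith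
    have h3 : (n : ℝ) ^ 2 ≤ Real.exp (C₅ * t) ^ 2 := pow_le_pow_left₀ (by linarith) hL2 2
    calc 8 * (n : ℝ) ^ 2 * Real.exp (2 * ((C₀ + 10) * t))
        < Real.exp (6 * t) * (n : ℝ) ^ 2 * Real.exp (2 * ((C₀ + 10) * t)) := by
          have h4 : 0 < (n : ℝ) ^ 2 := by positivity
          gcongr
      _ ≤ Real.exp (6 * t) * Real.exp (C₅ * t) ^ 2 * Real.exp (2 * ((C₀ + 10) * t)) := by
          gcongr
      _ = Real.exp ((2 * C₅ + 2 * C₀ + 26) * t) := by
          rw [← Real.exp_nat_mul, ← Real.exp_add, ← Real.exp_add]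
          congr 1
          push_cast
          ring
      _ ≤ κ := by
          rw [hκ]
          apply Real.exp_le_exp.2
          nlinarith
  have hκ0 : 0 < κ := by
    rw [hκ]
    exact Real.exp_pos _
  have hn3 : (n : ℝ) ^ 2 ≤ (n : ℝ) ^ 3 := pow_le_pow_right₀ hn1 (by norm_num)
  have hn31 : (1 : ℝ) ≤ (n : ℝ) ^ 3 := one_le_pow₀ hn1
  have hκ4 : 16 * (n : ℝ) ^ 2 ≤ κ := by nlinarith
  have hκ1 : 100 * aa A B ≤ κ := by nlinarith
  -- the points
  have hx0 : ∀ i, 0 < (x i : ℝ) := fun i => lt_of_lt_of_le hκ0 (hx i)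
  have hint : ∀ i, Near (P i) ∧ 1 / 2 ≤ (x i : ℝ) * uu (P i) ^ 2 ∧ (x i : ℝ) * uu (P i) ^ 2 ≤ 2 := by
    intro i
    obtain ⟨y, h, hP⟩ := hI i
    rw [hP]
    exact near_int h (hκ1.trans (hx i))
  obtain ⟨S, hS⟩ : ∃ S, S = ∑ i, |(a i : ℝ)| * |uu (P i)| := ⟨_, rfl⟩
  have hS0 : 0 ≤ S := by
    rw [hS]
    exact Finset.sum_nonneg fun k _ => by positivity
  -- the basic bound, for every lower bound of the x-coordinates
  have hSX : ∀ X : ℝ, 0 < X → (∀ i, X ≤ x i) → S ^ 2 * X ≤ 2 * (n : ℝ) ^ 2 := by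
    intro X hX hXx
    have husq : ∀ i, uu (P i) ^ 2 ≤ 2 / X := by
      intro i
      rw [le_div_iff₀ hX]
      have h1 := (hint i).2.2
      have h2 := hXx i
      nlinarith [sq_nonneg (uu (P i))]
    obtain ⟨U, hU⟩ : ∃ U, U = √(2 / X) := ⟨_, rfl⟩
    have hU0 : 0 ≤ U := by
      rw [hU]
      exact Real.sqrt_nonneg _
    have hU2 : U ^ 2 = 2 / X := by
      rw [hU, Real.sq_sqrt (by positivity)]
    have huU : ∀ i, |uu (P i)| ≤ U := by
      intro i
      rw [hU]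
      exact Real.abs_le_sqrt (husq i)
    have hSU : S ≤ n * U := by
      rw [hS]
      calc ∑ i, |(a i : ℝ)| * |uu (P i)| ≤ ∑ i, |(a i : ℝ)| * U :=
            Finset.sum_le_sum fun i _ => mul_le_mul_of_nonneg_left (huU i) (abs_nonneg _)
        _ = (∑ i, |(a i : ℝ)|) * U := by rw [Finset.sum_mul]
        _ ≤ n * U := mul_le_mul_of_nonneg_right hsumR hU0
    have hS2 : S ^ 2 ≤ (n : ℝ) ^ 2 * (2 / X) := by
      rw [← hU2, ← mul_pow]
      exact pow_le_pow_left₀ hS0 hSU 2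
    calc S ^ 2 * X ≤ (n : ℝ) ^ 2 * (2 / X) * X := mul_le_mul_of_nonneg_right hS2 hX.le
      _ = 2 * (n : ℝ) ^ 2 := by field_simp
  have hS2' : S ^ 2 * κ ≤ 2 * (n : ℝ) ^ 2 := hSX κ hκ0 hx
  have hc1 : 10 ^ 6 * aa A B * n * S ^ 2 ≤ 1 := by
    have h1 : 10 ^ 6 * aa A B * n * S ^ 2 * κ ≤ 1 * κ := by
      calc 10 ^ 6 * aa A B * n * S ^ 2 * κ = 10 ^ 6 * aa A B * n * (S ^ 2 * κ) := by ring
        _ ≤ 10 ^ 6 * aa A B * n * (2 * (n : ℝ) ^ 2) :=
            mul_le_mul_of_nonneg_left hS2' (by positivity)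
        _ = 2 * 10 ^ 6 * aa A B * (n : ℝ) ^ 3 := by ring
        _ ≤ 1 * κ := by rw [one_mul]; exact hκ2
    exact le_of_mul_le_mul_right h1 hκ0
  have hS14 : S ^ 2 ≤ 1 / 4 := by
    have h1 : S ^ 2 * κ ≤ 1 / 4 * κ := by linarith
    exact le_of_mul_le_mul_right h1 hκ0
  have hS3 : S ^ 3 ≤ 1 / 4 * S := by
    calc S ^ 3 = S ^ 2 * S := by ring
      _ ≤ 1 / 4 * S := mul_le_mul_of_nonneg_right hS14 hS0
  obtain ⟨hNT, hdiff⟩ := near_zsum P a (fun i => (hint i).1) S (le_of_eq hS.symm) n hsum hc1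
  have habs : |∑ i, (a i : ℝ) * uu (P i)| ≤ S := by
    rw [hS]
    refine (Finset.abs_sum_le_sum_abs _ _).trans (le_of_eq ?_)
    exact Finset.sum_congr rfl fun i _ => abs_mul _ _
  have huT : |uu (∑ i, a i • P i)| ≤ 2 * S := by
    have h2 := abs_sub_abs_le_abs_sub (uu (∑ i, a i • P i)) (∑ i, (a i : ℝ) * uu (P i))
    linarith
  refine ⟨?_, ?_⟩
  · rw [← hS]
    exact hdiff.trans hS3
  · intro hTfin
    refine torsion_zero hC₀ hcan hTfin hNT ?_
    rw [← htt]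
    refine lt_of_le_of_lt huT ?_
    have h3 : (2 * S) ^ 2 < Real.exp (-((C₀ + 10) * t)) ^ 2 := by
      have h4 : (2 * S) ^ 2 * κ < Real.exp (-((C₀ + 10) * t)) ^ 2 * κ := by
        calc (2 * S) ^ 2 * κ = 4 * (S ^ 2 * κ) := by ring
          _ ≤ 4 * (2 * (n : ℝ) ^ 2) := by linarith
          _ = Real.exp (-((C₀ + 10) * t)) ^ 2 * (8 * (n : ℝ) ^ 2 * Real.exp (2 * ((C₀ + 10) * t))) := by
              have h5 : Real.exp (-((C₀ + 10) * t)) ^ 2 * Real.exp (2 * ((C₀ + 10) * t)) = 1 := by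
                rw [← Real.exp_nat_mul, ← Real.exp_add, ← Real.exp_zero]
                congr 1
                push_cast
                ring
              calc 4 * (2 * (n : ℝ) ^ 2) = 8 * (n : ℝ) ^ 2 * 1 := by ring
                _ = _ := by
                    rw [← h5]
                    ring
          _ < Real.exp (-((C₀ + 10) * t)) ^ 2 * κ :=
              mul_lt_mul_of_pos_left hκ3 (by positivity)
      exact lt_of_mul_lt_mul_right h4 hκ0.le
    exact lt_of_pow_lt_pow_left₀ 2 (Real.exp_pos _).le h3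

end Pool.Agent.LibHU64
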