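import Pool.Agent.LibHU64.C1
import Pool.Agent.LibDP24.G2

/-!
ROW C2 (MEDIUM: a copy of LibDP24/G2.lean with the constants written out). Comparison of sizes with a constant quadratic in the rank (cites C1 as stated).

PLAN. Copy `Pool/Agent/LibDP24/G2.lean`. In `zero_relation` (for given `s`) `c = 2 * log (2 (s+1) (s+3)^(s+1)) + (s+1) (C₁+C₂)/2` with `C₁, C₂` from `can_int_upper`,
`can_lower` (independent of `s`), `K = 3 (2 log (s+2) + c) + 2 C₀ + 40` (C1 with `N = s + 1`); in `compare`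
`K = K₁ + K₂ + (1 + 2 log 100) + 2 c + d`, `d = 2 log (16 (s+1)²)`, `K₁ = K₂ = K` above. All are `≤ D (s+1)²`: `log (s+1) ≤ s`, `log (s+2) ≤ s + 1`, `log (s+3) ≤ s + 2`
(`Real.log_le_sub_one_of_pos`), so `c ≤ 2 (1 + s + (s+1)(s+2)) + (s+1)(C₁+C₂)/2 ≤ (12 + C₁ + C₂)(s+1)²`, etc.; e.g. `D = 1000 (1 + C₀ + C₁ + C₂)`.
Simplest: prove first `∀ s, ∃ c, 0 ≤ c ∧ c ≤ D₁ (s+1)² ∧ (relation with exp (c ell))`, and use that a statement with hypothesis `exp (K ell) ≤ x` follows from the one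
with a smaller `K` (`G5_exp` in LibDP24/G5.lean).
-/

set_option autoImplicit false

open WeierstrassCurve Pool.Agent.LibDP24

namespace Pool.Agent.LibHU64

private theorem C2_const {c t : ℝ} (hc : 1 ≤ c) (ht : 1 / 2 ≤ t) : c ≤ Real.exp (2 * Real.log c * t) := by
  have h1 : 0 ≤ Real.log c := Real.log_nonneg hc
  calc c = Real.exp (Real.log c) := (Real.exp_log (by linarith)).symm
    _ ≤ _ := Real.exp_le_exp.2 (by nlinarith)

/-- the size of the multiplier -/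
private theorem C2_size (r : ℕ) {C t : ℝ} (hC : 0 ≤ C) (ht : 1 / 2 ≤ t) :
    ∃ L : ℕ, 0 < L ∧ ((r : ℝ) + 1) * Real.exp (C * t) < L ∧
      (((r + 1) * (L ^ (r + 1) + 1) : ℕ) : ℝ) ≤
        Real.exp ((2 * Real.log (2 * ((r : ℝ) + 1) * ((r : ℝ) + 3) ^ (r + 1)) + ((r : ℝ) + 1) * C) * t) := by
  have hr : (0 : ℝ) ≤ r := Nat.cast_nonneg r
  obtain ⟨e, he⟩ : ∃ e, e = Real.exp (C * t) := ⟨_, rfl⟩
  have he1 : 1 ≤ e := by
    rw [he]
    exact Real.one_le_exp (by nlinarith)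
  refine ⟨⌈((r : ℝ) + 1) * e⌉₊ + 1, Nat.succ_pos _, ?_, ?_⟩
  · rw [← he]
    push_cast
    have := Nat.le_ceil (((r : ℝ) + 1) * e)
    linarith
  · obtain ⟨L, hL⟩ : ∃ L : ℕ, L = ⌈((r : ℝ) + 1) * e⌉₊ + 1 := ⟨_, rfl⟩
    rw [← hL]
    have hL1 : (1 : ℝ) ≤ L := by
      rw [hL]
      push_cast
      have : (0 : ℝ) ≤ (⌈((r : ℝ) + 1) * e⌉₊ : ℝ) := Nat.cast_nonneg _
      linarith
    have hL2 : (L : ℝ) ≤ ((r : ℝ) + 3) * e := by
      rw [hL]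
      push_cast
      have := Nat.ceil_lt_add_one (show (0 : ℝ) ≤ ((r : ℝ) + 1) * e by positivity)
      nlinarith
    have hLp : (L : ℝ) ^ (r + 1) ≤ ((r : ℝ) + 3) ^ (r + 1) * e ^ (r + 1) := by
      rw [← mul_pow]
      exact pow_le_pow_left₀ (by linarith) hL2 _
    have hL3 : (1 : ℝ) ≤ (L : ℝ) ^ (r + 1) := one_le_pow₀ hL1
    have hc : (1 : ℝ) ≤ 2 * ((r : ℝ) + 1) * ((r : ℝ) + 3) ^ (r + 1) := by
      have h1 : (1 : ℝ) ≤ ((r : ℝ) + 3) ^ (r + 1) := one_le_pow₀ (by linarith)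
      nlinarith
    have hex : e ^ (r + 1) = Real.exp (((r : ℝ) + 1) * C * t) := by
      rw [he, ← Real.exp_nat_mul]
      congr 1
      push_cast
      ring
    calc (((r + 1) * (L ^ (r + 1) + 1) : ℕ) : ℝ) = ((r : ℝ) + 1) * ((L : ℝ) ^ (r + 1) + 1) := by
          push_cast
          ring
      _ ≤ ((r : ℝ) + 1) * (2 * (((r : ℝ) + 3) ^ (r + 1) * e ^ (r + 1))) := by
          apply mul_le_mul_of_nonneg_left _ (by linarith)
          linarith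
      _ = (2 * ((r : ℝ) + 1) * ((r : ℝ) + 3) ^ (r + 1)) * e ^ (r + 1) := by ring
      _ ≤ Real.exp (2 * Real.log (2 * ((r : ℝ) + 1) * ((r : ℝ) + 3) ^ (r + 1)) * t) *
          Real.exp (((r : ℝ) + 1) * C * t) := by
          rw [hex]
          exact mul_le_mul_of_nonneg_right (C2_const hc ht) (Real.exp_pos _).le
      _ = _ := by
          rw [← Real.exp_add]
          congr 1
          ring

private theorem C2_relation (hPB : PB) (C₀ : ℝ) (hC₀ : 0 ≤ C₀) : ∃ C : ℝ, 0 ≤ C ∧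
    ∀ s : ℕ, ∃ c : ℝ, 0 ≤ c ∧ c ≤ (6 + C) * ((s : ℝ) + 1) ^ 2 ∧
    ∀ A B : ℤ, 4 * A ^ 3 + 27 * B ^ 2 ≠ 0 → ∀ hh : Pt A B → ℝ, IsCan C₀ hh →
    ∀ (P : Fin (s + 1) → Pt A B) (x : Fin (s + 1) → ℤ), (∀ i, IsInt (P i) (x i)) →
      ¬ LinearIndependent ℤ P →
      ∃ a : Fin (s + 1) → ℤ, a ≠ 0 ∧ (∀ i, |(a i : ℝ)| ≤ Real.exp (c * ell A B)) ∧
        IsOfFinAddOrder (∑ i, a i • P i) ∧
        ((∀ i, Real.exp ((3 * (2 * Real.log (((s + 1 : ℕ) : ℝ) + 1) + c) + 2 * C₀ + 40) *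
          ell A B) ≤ x i) → ∑ i, a i • P i = 0) := by
  obtain ⟨C₁, hC₁, hup⟩ := can_int_upper hPB C₀ hC₀
  obtain ⟨C₂, hC₂, hlo⟩ := can_lower C₀ hC₀
  refine ⟨C₁ + C₂, by linarith, fun s => ?_⟩
  have hs : (0 : ℝ) ≤ s := Nat.cast_nonneg s
  obtain ⟨c, hc⟩ : ∃ c, c = 2 * Real.log (2 * ((s : ℝ) + 1) * ((s : ℝ) + 3) ^ (s + 1)) +
    ((s : ℝ) + 1) * ((C₁ + C₂) / 2) := ⟨_, rfl⟩
  have hc0 : 0 ≤ c := by
    have h1 : (1 : ℝ) ≤ ((s : ℝ) + 3) ^ (s + 1) := one_le_pow₀ (by linarith)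
    have h2 : 0 ≤ Real.log (2 * ((s : ℝ) + 1) * ((s : ℝ) + 3) ^ (s + 1)) :=
      Real.log_nonneg (by nlinarith)
    have h3 : 0 ≤ ((s : ℝ) + 1) * ((C₁ + C₂) / 2) := by positivity
    rw [hc]
    linarith
  have hcu : c ≤ (6 + (C₁ + C₂)) * ((s : ℝ) + 1) ^ 2 := by
    have h1 : Real.log (2 * ((s : ℝ) + 1) * ((s : ℝ) + 3) ^ (s + 1)) =
        Real.log 2 + Real.log ((s : ℝ) + 1) + ((s : ℝ) + 1) * Real.log ((s : ℝ) + 3) := by
      rw [Real.log_mul (by positivity) (by positivity), Real.log_mul (by norm_num) (by positivity),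
        Real.log_pow]
      push_cast
      ring
    have h2 : Real.log 2 ≤ 1 := by
      have := Real.log_le_sub_one_of_pos (show (0 : ℝ) < 2 by norm_num)
      linarith
    have h3 : Real.log ((s : ℝ) + 1) ≤ s := by
      have := Real.log_le_sub_one_of_pos (show (0 : ℝ) < (s : ℝ) + 1 by linarith)
      linarith
    have h4 : Real.log ((s : ℝ) + 3) ≤ s + 2 := by
      have := Real.log_le_sub_one_of_pos (show (0 : ℝ) < (s : ℝ) + 3 by linarith)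
      linarith
    have h5 : ((s : ℝ) + 1) * Real.log ((s : ℝ) + 3) ≤ ((s : ℝ) + 1) * (s + 2) :=
      mul_le_mul_of_nonneg_left h4 (by linarith)
    have h6 : ((s : ℝ) + 1) * ((C₁ + C₂) / 2) ≤ (C₁ + C₂) * ((s : ℝ) + 1) ^ 2 := by
      have h7 : 0 ≤ C₁ + C₂ := by linarith
      have h8 : ((s : ℝ) + 1) / 2 ≤ ((s : ℝ) + 1) ^ 2 := by nlinarith
      have h9 := mul_le_mul_of_nonneg_left h8 h7
      linarith
    rw [hc, h1]
    nlinarith
  have hcomb := combo_u C₀ c hC₀ hc0 (s + 1)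
  refine ⟨c, hc0, hcu, fun A B hD hh hcan P x hP hdep => ?_⟩
  have ht := ell_ge A B
  obtain ⟨L, hL, hL1, hL2⟩ := C2_size s (C := (C₁ + C₂) / 2) (t := ell A B) (by linarith) ht
  rw [← hc] at hL2
  obtain ⟨a, ha0, ha, hT⟩ := small_relation (hh := hh) hcan.par hcan.nonneg
    (lam := Real.exp (-(C₂ * ell A B))) (Q := Real.exp (C₁ * ell A B))
    (fun R hR => hlo A B hh hcan R hR) P hdep (fun i => by
      obtain ⟨y, h, hPi⟩ := hP i
      rw [hPi]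
      exact hup A B hD hh hcan (x i) y h) L hL (by
      have h1 : Real.exp (C₁ * ell A B) =
          Real.exp (-(C₂ * ell A B)) * Real.exp ((C₁ + C₂) / 2 * ell A B) ^ 2 := by
        rw [← Real.exp_nat_mul, ← Real.exp_add]
        congr 1
        push_cast
        ring
      have h2 : (((s : ℝ) + 1) * Real.exp ((C₁ + C₂) / 2 * ell A B)) ^ 2 < (L : ℝ) ^ 2 :=
        pow_lt_pow_left₀ hL1 (by positivity) (by norm_num)
      rw [h1]
      calc ((s : ℝ) + 1) ^ 2 * (Real.exp (-(C₂ * ell A B)) *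
            Real.exp ((C₁ + C₂) / 2 * ell A B) ^ 2) =
          Real.exp (-(C₂ * ell A B)) *
            (((s : ℝ) + 1) * Real.exp ((C₁ + C₂) / 2 * ell A B)) ^ 2 := by ring
        _ < Real.exp (-(C₂ * ell A B)) * (L : ℝ) ^ 2 := mul_lt_mul_of_pos_left h2 (Real.exp_pos _))
  have hac : ∀ i, |(a i : ℝ)| ≤ Real.exp (c * ell A B) := fun i => by
    have h1 : |(a i : ℝ)| ≤ (L : ℝ) ^ (s + 1) + 1 := by exact_mod_cast ha i
    refine h1.trans (le_trans ?_ hL2)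
    push_cast
    have h2 : (0 : ℝ) ≤ (L : ℝ) ^ (s + 1) := by positivity
    nlinarith
  exact ⟨a, ha0, hac, hT, fun hx => (hcomb A B hh hcan P x hP hx a hac).2 hT⟩

/-- the comparison of sizes, only real numbers -/
private theorem C2_real {s : ℕ} {e X x₀ a₀ u₀ : ℝ} {b u x : Fin s → ℝ} (he : 0 < e) (hX : 0 < X)
    (hx₀ : 0 < x₀) (ha₀ : 1 ≤ |a₀|) (h0 : 1 / 2 ≤ x₀ * u₀ ^ 2) (hb : ∀ i, |b i| ≤ e)
    (hx : ∀ i, X ≤ x i) (hu : ∀ i, x i * u i ^ 2 ≤ 2)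
    (h : |a₀ * u₀ + ∑ i, b i * u i| ≤ 1 / 4 * (|a₀| * |u₀| + ∑ i, |b i| * |u i|)) :
    X ≤ 16 * (s : ℝ) ^ 2 * e ^ 2 * x₀ := by
  obtain ⟨v, hv, hv2⟩ : ∃ v : ℝ, 0 ≤ v ∧ v ^ 2 = 2 / X :=
    ⟨√(2 / X), Real.sqrt_nonneg _, Real.sq_sqrt (by positivity)⟩
  have hui : ∀ i, |u i| ≤ v := fun i => by
    apply abs_le_of_sq_le_sq _ hv
    rw [hv2, le_div_iff₀ hX]
    have h1 := hu i
    have h2 : X * u i ^ 2 ≤ x i * u i ^ 2 := mul_le_mul_of_nonneg_right (hx i) (sq_nonneg _)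
    linarith
  obtain ⟨U, hU⟩ : ∃ U, U = ∑ i, |b i| * |u i| := ⟨_, rfl⟩
  have hU1 : U ≤ s * (e * v) := by
    rw [hU]
    refine (Finset.sum_le_sum fun i _ => mul_le_mul (hb i) (hui i) (abs_nonneg _) he.le).trans ?_
    rw [Finset.sum_const, Finset.card_univ, Fintype.card_fin, nsmul_eq_mul]
  have hU2 : |∑ i, b i * u i| ≤ U := by
    rw [hU]
    refine (Finset.abs_sum_le_sum_abs _ _).trans (le_of_eq ?_)
    exact Finset.sum_congr rfl fun i _ => abs_mul _ _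
  have h1 : |a₀| * |u₀| ≤ |a₀ * u₀ + ∑ i, b i * u i| + |∑ i, b i * u i| := by
    rw [← abs_mul]
    have h2 := abs_sub (a₀ * u₀ + ∑ i, b i * u i) (∑ i, b i * u i)
    rwa [add_sub_cancel_right] at h2
  have h2 : |u₀| ≤ |a₀| * |u₀| := le_mul_of_one_le_left (abs_nonneg _) ha₀
  have hU0 : 0 ≤ U := (abs_nonneg _).trans hU2
  have h3 : |u₀| ≤ 2 * (s * (e * v)) := by
    rw [← hU] at h
    linarith
  have h4 : u₀ ^ 2 ≤ (2 * (s * (e * v))) ^ 2 := by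
    rw [← sq_abs u₀]
    exact pow_le_pow_left₀ (abs_nonneg _) h3 2
  have h5 : (2 * (s * (e * v))) ^ 2 = 8 * (s : ℝ) ^ 2 * e ^ 2 / X := by
    have : (2 * (s * (e * v))) ^ 2 = 4 * (s : ℝ) ^ 2 * e ^ 2 * v ^ 2 := by ring
    rw [this, hv2]
    ring
  rw [h5] at h4
  have h6 : 1 / 2 ≤ x₀ * (8 * (s : ℝ) ^ 2 * e ^ 2 / X) :=
    h0.trans (mul_le_mul_of_nonneg_left h4 hx₀.le)
  have h7 : x₀ * (8 * (s : ℝ) ^ 2 * e ^ 2 / X) = (8 * (s : ℝ) ^ 2 * e ^ 2 * x₀) / X := by ring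
  rw [h7, le_div_iff₀ hX] at h6
  linarith

theorem compare_u (hPB : PB) (C₀ : ℝ) (hC₀ : 0 ≤ C₀) : ∃ D : ℝ, 1 ≤ D ∧
    ∀ (s : ℕ) (A B : ℤ), 4 * A ^ 3 + 27 * B ^ 2 ≠ 0 → ∀ hh : Pt A B → ℝ, IsCan C₀ hh →
    ∀ (P₀ : Pt A B) (x₀ : ℤ) (Q : Fin s → Pt A B) (x : Fin s → ℤ), IsInt P₀ x₀ →
      (∀ i, IsInt (Q i) (x i)) → Real.exp (D * ((s : ℝ) + 1) ^ 2 * ell A B) ≤ x₀ →
      (∀ i, Real.exp (D * ((s : ℝ) + 1) ^ 2 * ell A B) ≤ x i) → LinearIndependent ℤ Q →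
      ¬ LinearIndependent ℤ (Fin.cons P₀ Q : Fin (s + 1) → Pt A B) →
      ∀ X : ℝ, (∀ i, X ≤ x i) → X ≤ Real.exp (D * ((s : ℝ) + 1) ^ 2 * ell A B) * x₀ := by
  obtain ⟨C, hC, hrel0⟩ := C2_relation hPB C₀ hC₀
  refine ⟨373 + 8 * C + 4 * C₀, by linarith, fun s => ?_⟩
  obtain ⟨c, hc, hcu, hrel⟩ := hrel0 s
  have hcomb := combo_u C₀ c hC₀ hc (s + 1)
  have hs : (0 : ℝ) ≤ s := Nat.cast_nonneg s
  obtain ⟨d, hd⟩ : ∃ d, d = 2 * Real.log (16 * ((s : ℝ) + 1) ^ 2) := ⟨_, rfl⟩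
  have hd1 : (1 : ℝ) ≤ 16 * ((s : ℝ) + 1) ^ 2 := by nlinarith
  have hd0 : 0 ≤ d := by
    rw [hd]
    have := Real.log_nonneg hd1
    linarith
  have hl : 0 ≤ Real.log 100 := Real.log_nonneg (by norm_num)
  obtain ⟨K₁, hK₁d⟩ : ∃ K₁, K₁ = 3 * (2 * Real.log (((s + 1 : ℕ) : ℝ) + 1) + c) + 2 * C₀ + 40 :=
    ⟨_, rfl⟩
  rw [← hK₁d] at hrel hcomb
  obtain ⟨σ, hσ⟩ : ∃ σ : ℝ, σ = ((s : ℝ) + 1) ^ 2 := ⟨_, rfl⟩
  have hσ1 : 1 ≤ σ := by rw [hσ]; nlinarith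
  have hsσ : (s : ℝ) + 1 ≤ σ := by rw [hσ]; nlinarith
  have hlog : Real.log (((s + 1 : ℕ) : ℝ) + 1) ≤ σ := by
    have h1 := Real.log_le_sub_one_of_pos (show (0 : ℝ) < ((s + 1 : ℕ) : ℝ) + 1 by positivity)
    refine h1.trans ?_
    push_cast
    linarith
  have hdu : d ≤ 34 * σ := by
    have h1 : Real.log (16 * ((s : ℝ) + 1) ^ 2) = Real.log 16 + 2 * Real.log ((s : ℝ) + 1) := by
      rw [Real.log_mul (by norm_num) (by positivity), Real.log_pow]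
      push_cast
      ring
    have h2 : Real.log 16 ≤ 15 := by
      have := Real.log_le_sub_one_of_pos (show (0 : ℝ) < 16 by norm_num)
      linarith
    have h3 : Real.log ((s : ℝ) + 1) ≤ s := by
      have := Real.log_le_sub_one_of_pos (show (0 : ℝ) < (s : ℝ) + 1 by linarith)
      linarith
    rw [hd, h1]
    linarith
  have hl2 : Real.log 100 ≤ 99 := by
    have := Real.log_le_sub_one_of_pos (show (0 : ℝ) < 100 by norm_num)
    linarith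
  rw [← hσ] at hcu
  rw [← hσ]
  have hC₀σ : C₀ ≤ C₀ * σ := le_mul_of_one_le_right hC₀ hσ1
  have hCσ : 0 ≤ C * σ := mul_nonneg hC (by linarith)
  have hlog0 : 0 ≤ Real.log (((s + 1 : ℕ) : ℝ) + 1) :=
    Real.log_nonneg (by push_cast; linarith)
  have hK₁0 : 0 ≤ K₁ := by
    rw [hK₁d]
    linarith
  have hKK : 2 * K₁ + (1 + 2 * Real.log 100) + 2 * c + d ≤ (373 + 8 * C + 4 * C₀) * σ := by
    rw [hK₁d]
    nlinarith
  obtain ⟨K, hK⟩ : ∃ K, K = (373 + 8 * C + 4 * C₀) * σ := ⟨_, rfl⟩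
  rw [← hK] at hKK ⊢
  intro A B hD hh hcan P₀ x₀ Q x hP₀ hQ hx₀ hx hind hdep X hX
  have ht := ell_ge A B
  obtain ⟨t, htt⟩ : ∃ t, t = ell A B := ⟨_, rfl⟩
  have hexp : ∀ k : ℝ, k ≤ K →
      Real.exp (k * ell A B) ≤
        Real.exp (K * ell A B) := fun k hk =>
    Real.exp_le_exp.2 (mul_le_mul_of_nonneg_right hk (by linarith))
  have hx₀p : (0 : ℝ) < x₀ := lt_of_lt_of_le (Real.exp_pos _) hx₀
  rcases le_or_gt X 0 with hX0 | hX0
  · exact hX0.trans (by positivity)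
  have h100 : 100 * aa A B ≤ Real.exp ((1 + 2 * Real.log 100) * ell A B) := by
    have h1 := C2_const (c := 100) (by norm_num) ht
    rw [← exp_ell, show (1 + 2 * Real.log 100) * ell A B = 2 * Real.log 100 * ell A B + ell A B by ring,
      Real.exp_add]
    exact mul_le_mul_of_nonneg_right h1 (Real.exp_pos _).le
  have hP : ∀ i, IsInt ((Fin.cons P₀ Q : Fin (s + 1) → Pt A B) i) ((Fin.cons x₀ x : Fin (s + 1) → ℤ) i) := by
    intro i
    refine Fin.cases ?_ (fun j => ?_) i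
    · simpa using hP₀
    · simpa using hQ j
  have hxx : ∀ i, Real.exp (K * ell A B) ≤
      (((Fin.cons x₀ x : Fin (s + 1) → ℤ) i : ℤ) : ℝ) := by
    intro i
    refine Fin.cases ?_ (fun j => ?_) i
    · simpa using hx₀
    · simpa using hx j
  obtain ⟨a, ha0, hac, hT, hzero⟩ := hrel A B hD hh hcan _ _ hP hdep
  have hz := hzero fun i => (hexp K₁ (by linarith)).trans (hxx i)
  have hco := (hcomb A B hh hcan _ _ hP (fun i => (hexp K₁ (by linarith)).trans (hxx i)) a hac).1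
  rw [hz] at hco
  rw [Fin.sum_univ_succ] at hz
  simp only [Fin.cons_zero, Fin.cons_succ] at hz
  have ha00 : a 0 ≠ 0 := by
    intro h0
    rw [h0, zero_zsmul, zero_add] at hz
    have h1 := Fintype.linearIndependent_iff.1 hind (fun i => a i.succ) hz
    apply ha0
    funext i
    refine Fin.cases ?_ (fun j => ?_) i
    · exact h0
    · exact h1 j
  have hu0 : uu (0 : Pt A B) = 0 := rfl
  rw [hu0, Fin.sum_univ_succ, Fin.sum_univ_succ] at hco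
  simp only [Fin.cons_zero, Fin.cons_succ] at hco
  rw [zero_sub, abs_neg] at hco
  have hni : ∀ (R : Pt A B) (z : ℤ), IsInt R z →
      Real.exp (K * ell A B) ≤ z →
      1 / 2 ≤ (z : ℝ) * uu R ^ 2 ∧ (z : ℝ) * uu R ^ 2 ≤ 2 := by
    rintro R z ⟨y, h, rfl⟩ hz'
    have h1 := near_int h (h100.trans ((hexp _ (by linarith)).trans hz'))
    exact h1.2
  have hmain := C2_real (s := s) (e := Real.exp (c * ell A B)) (X := X) (x₀ := x₀) (a₀ := a 0)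
    (u₀ := uu P₀) (b := fun i => (a i.succ : ℝ)) (u := fun i => uu (Q i)) (x := fun i => (x i : ℝ))
    (Real.exp_pos _) hX0 hx₀p (by
      have h1 : 1 ≤ |a 0| := Int.one_le_abs ha00
      exact_mod_cast h1) (hni _ _ hP₀ hx₀).1 (fun i => hac i.succ) hX
    (fun i => (hni _ _ (hQ i) (hx i)).2) hco
  refine hmain.trans (mul_le_mul_of_nonneg_right ?_ hx₀p.le)
  have h1 : 16 * (s : ℝ) ^ 2 ≤ Real.exp (d * ell A B) := by
    have h2 := C2_const hd1 ht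
    rw [← hd] at h2
    refine le_trans ?_ h2
    nlinarith
  calc 16 * (s : ℝ) ^ 2 * Real.exp (c * ell A B) ^ 2 ≤
        Real.exp (d * ell A B) * Real.exp (c * ell A B) ^ 2 :=
        mul_le_mul_of_nonneg_right h1 (by positivity)
    _ = Real.exp ((2 * c + d) * ell A B) := by
        rw [← Real.exp_nat_mul, ← Real.exp_add]
        congr 1
        push_cast
        ring
    _ ≤ _ := hexp _ (by linarith)

end Pool.Agent.LibHU64
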