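import Pool.Agent.LibHU64.B2
import Pool.Agent.LibHU64.C2

/-!
ROW D1 (MEDIUM). The number of very large integral points in rank `≤ r` is at most `r * pk r` (cites B2, C2 as stated; compare LibDP24/G5.lean).

PLAN. `D = 10 (D₂ + M₀)` with `M₀` from `window_count`, `D₂` from `compare_u`. Fix `r`, `A`, `B`, `hh`. Wlog `x` strictly increasing (`Tuple.sort`, as in the last
lines of LibDP24/G5.lean; `RankLe` is stable under composition with maps of the index set).
Claim for all `s ≤ r` by induction on `s`: for all `N`, `P`, `x` strictly increasing, integral points, all `x i ≥ exp (D (r+1)² ℓ)`, `RankLe s P`: `N ≤ s * pk r`.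
`s = 0`: `N = 0`: otherwise `compare_u` with `s = 0`, `P₀ = P 0`, `Q` empty (`Fin.cons P₀ Q = P ∘ f`): every real `X` is `≤ exp (..) * x 0`, absurd.
`s → s + 1`: let `j ≤ N` be minimal such that the top family `P_j, ..., P_(N-1)` (`fun i : Fin (N - j) => P ⟨j + i, _⟩`) satisfies `RankLe s` (`Nat.find`; `j = N` works: no
`f : Fin (s+1) → Fin 0`). Induction: `N - j ≤ s * pk r`. If `j = 0`: done (`pk r ≥ 0`). Otherwise `t = j - 1` and the family from `t` on is NOT `RankLe s`: `f : Fin (s+1) → Fin N` with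
values `≥ t` and `P ∘ f` independent. For `i ≤ t`: `Fin.cons (P i) (P ∘ f) = P ∘ Fin.cons i f` is dependent (`RankLe (s+1) P`), so `compare_u (s+1)` with `X = x t`:
`x t ≤ exp (D₂ (s+2)² ℓ) * x i`, where `(s+2) ≤ r+1`, `D₂ (s+2)² ≤ D₂ (r+1)² ≤ D (r+1)² / 10 ≤ log (x 0) / (10 ℓ)`: `log x_t ≤ 1.1 log x_0`. So all `log x_i`, `i ≤ t`, are in `[X, 13/10 X]`
with `X = log x_0 ≥ D (r+1)² ℓ ≥ M₀ ℓ`: `window_count` for the `t + 1` points `P_0, ..., P_t` in rank `s + 1`: `t + 1 ≤ pk (s+1) ≤ pk r` (`pk_mono`). `N = (t + 1) + (N - j)`.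
-/

set_option autoImplicit false

open WeierstrassCurve Pool.Agent.LibDP24

namespace Pool.Agent.LibHU64

private theorem D1_cons {α : Type*} {N n : ℕ} (P : Fin N → α) (i : Fin N) (g : Fin n → Fin N) :
    (Fin.cons (P i) (P ∘ g) : Fin (n + 1) → α) = P ∘ (Fin.cons i g : Fin (n + 1) → Fin N) := by
  funext j
  refine Fin.cases ?_ (fun k => ?_) j
  · simp
  · simp

/-- the strictly monotone case, all ranks `s ≤ r` -/
private theorem D1_mono {D₂ M₀ : ℝ} (hD₂ : 1 ≤ D₂) (hM₀ : 1 ≤ M₀) (r : ℕ) {A B : ℤ}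
    (hcmp : ∀ (s : ℕ) (P₀ : Pt A B) (x₀ : ℤ) (Q : Fin s → Pt A B) (x : Fin s → ℤ), IsInt P₀ x₀ →
      (∀ i, IsInt (Q i) (x i)) → Real.exp (D₂ * ((s : ℝ) + 1) ^ 2 * ell A B) ≤ x₀ →
      (∀ i, Real.exp (D₂ * ((s : ℝ) + 1) ^ 2 * ell A B) ≤ x i) → LinearIndependent ℤ Q →
      ¬ LinearIndependent ℤ (Fin.cons P₀ Q : Fin (s + 1) → Pt A B) →
      ∀ X : ℝ, (∀ i, X ≤ x i) → X ≤ Real.exp (D₂ * ((s : ℝ) + 1) ^ 2 * ell A B) * x₀)
    (hwin : ∀ X : ℝ, M₀ * ell A B ≤ X → ∀ (r n : ℕ) (P : Fin n → Pt A B) (x : Fin n → ℤ),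
      (∀ i, IsInt (P i) (x i)) → Function.Injective x → RankLe r P →
      (∀ i, 0 < x i) → (∀ i, X ≤ Real.log (x i)) → (∀ i, Real.log (x i) ≤ 13 / 10 * X) →
      (n : ℝ) ≤ pk r) (s : ℕ) : s ≤ r →
    ∀ (N : ℕ) (P : Fin N → Pt A B) (x : Fin N → ℤ),
      (∀ i, IsInt (P i) (x i)) → StrictMono x → RankLe s P →
      (∀ i, Real.exp (10 * (D₂ + M₀) * ((r : ℝ) + 1) ^ 2 * ell A B) ≤ x i) →
      (N : ℝ) ≤ s * pk r := by
  have hl := ell_ge A B
  have hl0 : 0 < ell A B := by linarith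
  have hr0 : (0 : ℝ) ≤ r := Nat.cast_nonneg r
  have hr1 : (1 : ℝ) ≤ ((r : ℝ) + 1) ^ 2 := by nlinarith
  have hpk : 3 ≤ pk r := pk_ge r
  have hexp : ∀ s : ℕ, s ≤ r → Real.exp (D₂ * ((s : ℝ) + 1) ^ 2 * ell A B) ≤
      Real.exp (10 * (D₂ + M₀) * ((r : ℝ) + 1) ^ 2 * ell A B) := by
    intro s hs
    apply Real.exp_le_exp.mpr
    have hs' : (s : ℝ) ≤ r := by exact_mod_cast hs
    have hs0 : (0 : ℝ) ≤ s := Nat.cast_nonneg s
    have h1 : ((s : ℝ) + 1) ^ 2 ≤ ((r : ℝ) + 1) ^ 2 := by gcongr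
    have h2 : D₂ ≤ 10 * (D₂ + M₀) := by linarith
    gcongr
  induction s with
  | zero =>
    intro _ N P x hP hx hrk hbig
    have hN : N = 0 := by
      by_contra hN0
      have hN1 : 0 < N := Nat.pos_of_ne_zero hN0
      let i0 : Fin N := ⟨0, hN1⟩
      let g : Fin 0 → Fin N := fun j => j.elim0
      have h := hcmp 0 (P i0) (x i0) (P ∘ g) (x ∘ g) (hP i0) (fun j => j.elim0)
        ((hexp 0 (Nat.zero_le _)).trans (hbig i0)) (fun j => j.elim0)
        (linearIndependent_empty_type)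
        (by
          rw [D1_cons P i0 g]
          exact hrk _)
        (Real.exp (D₂ * (((0 : ℕ) : ℝ) + 1) ^ 2 * ell A B) * (x i0 : ℝ) + 1) (fun j => j.elim0)
      linarith
    subst hN
    simp
  | succ s ih =>
    intro hsr N P x hP hx hrk hbig
    have hsr' : s ≤ r := by omega
    have hex : ∃ j : ℕ, ∀ f : Fin (s + 1) → Fin N, (∀ k, j ≤ (f k).1) →
        ¬ LinearIndependent ℤ (P ∘ f) := by
      refine ⟨N, fun f hf => ?_⟩
      have h1 := hf 0
      have h2 := (f 0).2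
      omega
    classical
    obtain ⟨j, hj, hjmin⟩ : ∃ j : ℕ, (∀ f : Fin (s + 1) → Fin N, (∀ k, j ≤ (f k).1) →
        ¬ LinearIndependent ℤ (P ∘ f)) ∧ ∀ t < j, ¬ (∀ f : Fin (s + 1) → Fin N,
          (∀ k, t ≤ (f k).1) → ¬ LinearIndependent ℤ (P ∘ f)) :=
      ⟨Nat.find hex, Nat.find_spec hex, fun t ht => Nat.find_min hex ht⟩
    have hjN : j ≤ N := by
      by_contra hcon
      push Not at hcon
      refine hjmin N hcon fun f hf => ?_
      have h1 := hf 0
      have h2 := (f 0).2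
      omega
    -- the top family
    let emb : Fin (N - j) → Fin N := fun i => ⟨j + i.1, by have := i.2; omega⟩
    have hembv : ∀ i : Fin (N - j), (emb i).1 = j + i.1 := fun i => rfl
    have hembm : StrictMono emb := by
      intro a b hab
      rw [Fin.lt_def] at hab ⊢
      rw [hembv, hembv]
      omega
    have htop : ((N - j : ℕ) : ℝ) ≤ s * pk r := by
      refine ih hsr' (N - j) (P ∘ emb) (x ∘ emb) (fun i => hP _) (hx.comp hembm) ?_
        (fun i => hbig _)
      intro f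
      exact hj (emb ∘ f) (fun k => by
        rw [Function.comp_apply, hembv]
        omega)
    have hNj : (N : ℝ) = (j : ℝ) + ((N - j : ℕ) : ℝ) := by
      rw [Nat.cast_sub hjN]
      ring
    have hjle : (j : ℝ) ≤ pk r := by
      rcases Nat.eq_zero_or_pos j with hj0 | hj0
      · rw [hj0]
        push_cast
        linarith
      obtain ⟨t, rfl⟩ : ∃ t, j = t + 1 := ⟨j - 1, by omega⟩
      have hft := hjmin t (Nat.lt_succ_self t)
      push Not at hft
      obtain ⟨f, hf, hfi⟩ := hft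
      have htN : t < N := by omega
      let T : Fin N := ⟨t, htN⟩
      let Z : Fin N := ⟨0, by omega⟩
      have hZ1 : Real.exp (10 * (D₂ + M₀) * ((r : ℝ) + 1) ^ 2 * ell A B) ≤ x Z := hbig Z
      have hc := hcmp (s + 1) (P Z) (x Z) (P ∘ f) (x ∘ f) (hP Z) (fun k => hP _)
        ((hexp (s + 1) hsr).trans hZ1) (fun k => (hexp (s + 1) hsr).trans (hbig _)) hfi
        (by
          rw [D1_cons P Z f]
          exact hrk _)
        (x T : ℝ) (by
          intro k
          have h1 : T ≤ f k := by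
            rw [Fin.le_def]
            exact hf k
          exact_mod_cast hx.monotone h1)
      have hZpos : (0 : ℝ) < x Z := lt_of_lt_of_le (Real.exp_pos _) hZ1
      have hposr : ∀ i, (0 : ℝ) < x i := fun i => lt_of_lt_of_le (Real.exp_pos _) (hbig i)
      set X : ℝ := Real.log (x Z) with hX
      have hXbig : 10 * (D₂ + M₀) * ((r : ℝ) + 1) ^ 2 * ell A B ≤ X := by
        rw [hX, Real.le_log_iff_exp_le hZpos]
        exact hZ1
      have hs' : (((s + 1 : ℕ) : ℝ) + 1) ≤ (r : ℝ) + 1 := by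
        have : ((s + 1 : ℕ) : ℝ) ≤ r := by exact_mod_cast hsr
        linarith
      have hs0 : (0 : ℝ) ≤ ((s + 1 : ℕ) : ℝ) := Nat.cast_nonneg _
      have hlT : Real.log (x T) ≤ D₂ * (((s + 1 : ℕ) : ℝ) + 1) ^ 2 * ell A B + X := by
        have h1 := Real.log_le_log (hposr T) hc
        rw [Real.log_mul (Real.exp_pos _).ne' hZpos.ne', Real.log_exp] at h1
        exact h1
      have h11 : D₂ * (((s + 1 : ℕ) : ℝ) + 1) ^ 2 * ell A B ≤ D₂ * ((r : ℝ) + 1) ^ 2 * ell A B := by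
        have h1 : (((s + 1 : ℕ) : ℝ) + 1) ^ 2 ≤ ((r : ℝ) + 1) ^ 2 := by gcongr
        gcongr
      have hrl : 0 ≤ ((r : ℝ) + 1) ^ 2 * ell A B := by positivity
      have h12 : D₂ * ((r : ℝ) + 1) ^ 2 * ell A B ≤ X / 10 := by nlinarith
      have h13 : M₀ * ell A B ≤ X := by
        have h1 : M₀ * ell A B ≤ M₀ * (((r : ℝ) + 1) ^ 2 * ell A B) := by
          have : ell A B ≤ ((r : ℝ) + 1) ^ 2 * ell A B := le_mul_of_one_le_left hl0.le hr1
          gcongr
        nlinarith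
      have hX0 : 0 ≤ X := le_trans (by positivity) h13
      let io : Fin (t + 1) → Fin N := fun i => ⟨i.1, by have := i.2; omega⟩
      have hio : StrictMono io := by
        intro a b hab
        rw [Fin.lt_def] at hab ⊢
        exact hab
      have hw := hwin X h13 (s + 1) (t + 1) (P ∘ io) (x ∘ io) (fun i => hP _)
        (hx.comp hio).injective (fun g => hrk (io ∘ g))
        (fun i => by exact_mod_cast hposr (io i))
        (fun i => by
          have h1 : Z ≤ io i := by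
            rw [Fin.le_def]
            exact Nat.zero_le _
          have h2 : (x Z : ℝ) ≤ (x (io i) : ℝ) := by exact_mod_cast hx.monotone h1
          exact Real.log_le_log hZpos h2)
        (fun i => by
          have h1 : io i ≤ T := by
            rw [Fin.le_def]
            have := i.2
            change i.1 ≤ t
            omega
          have h2 : (x (io i) : ℝ) ≤ (x T : ℝ) := by exact_mod_cast hx.monotone h1
          have h3 := Real.log_le_log (hposr (io i)) h2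
          change Real.log (x (io i)) ≤ 13 / 10 * X
          linarith)
      exact hw.trans (pk_mono hsr)
    rw [hNj]
    push_cast
    linarith

theorem count_high (hPB : PB) (C₀ : ℝ) (hC₀ : 0 ≤ C₀) : ∃ D : ℝ, 1 ≤ D ∧
    ∀ (r : ℕ) (A B : ℤ), 4 * A ^ 3 + 27 * B ^ 2 ≠ 0 → ∀ hh : Pt A B → ℝ, IsCan C₀ hh →
    ∀ (N : ℕ) (P : Fin N → Pt A B) (x : Fin N → ℤ),
      (∀ i, IsInt (P i) (x i)) → Function.Injective x → RankLe r P →
      (∀ i, Real.exp (D * ((r : ℝ) + 1) ^ 2 * ell A B) ≤ x i) → (N : ℝ) ≤ r * pk r := by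
  obtain ⟨D₂, hD₂, hcmp⟩ := compare_u hPB C₀ hC₀
  obtain ⟨M₀, hM₀, hwin⟩ := window_count C₀ hC₀
  refine ⟨10 * (D₂ + M₀), by linarith, ?_⟩
  intro r A B hD hh hcan N P x hP hx hrk hbig
  have hs : StrictMono (x ∘ Tuple.sort x) :=
    (Tuple.monotone_sort x).strictMono_of_injective (hx.comp (Tuple.sort x).injective)
  exact D1_mono hD₂ hM₀ r (fun s => hcmp s A B hD hh hcan) (hwin A B hh hcan) r le_rfl N
    (P ∘ Tuple.sort x) (x ∘ Tuple.sort x) (fun i => hP _) hs
    (fun f => hrk ((Tuple.sort x) ∘ f)) (fun i => hbig _)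

end Pool.Agent.LibHU64
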