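import Pool.Agent.LibHU64.B2

/-!
ROW D2 (SHORT/MEDIUM). The number of integral points of middle size (cites B2 as stated).

PLAN. `M₀` from `window_count`. Put `n = ⌈C (r+1)⌉₊`-many windows: `C` so large that `M₀ (13/10)^(C (r+1)) ≥ D (r+1)²` for all `r`, e.g. `C = 100 (D + 1)` natural:
`(13/10)^k ≥ k²/100` for all `k` (or any such inequality), so `(13/10)^(C(r+1)) ≥ C² (r+1)²/100 ≥ D (r+1)²`. For `k < C (r+1)` the set `S_k` of the indices `i` with
`M₀ ℓ (13/10)^k ≤ log x_i ≤ M₀ ℓ (13/10)^(k+1)` has at most `pk r` elements (`window_count` for the subfamily, `Finset.orderEmbOfFin` or `Finset.equivFin`), and every index lies in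
some `S_k` (`log x_i ≥ M₀ ℓ`, `log x_i < D (r+1)² ℓ`; take the largest `k` with `M₀ ℓ (13/10)^k ≤ log x_i`). `x i > 0` because `x i ≥ exp _ > 0`.
-/

set_option autoImplicit false

open WeierstrassCurve Pool.Agent.LibDP24

namespace Pool.Agent.LibHU64

private theorem D2_pow (D : ℝ) (hD : 1 ≤ D) (c r : ℕ) (hc : 4 * D ≤ c) :
    D * ((r : ℝ) + 1) ^ 2 ≤ (13 / 10 : ℝ) ^ (2 * c * (r + 1)) := by
  have h1 : 1 + ((c * (r + 1) : ℕ) : ℝ) * (3 / 10 : ℝ) ≤ (1 + 3 / 10 : ℝ) ^ (c * (r + 1)) :=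
    one_add_mul_le_pow (by norm_num) _
  have h2 : (13 / 10 : ℝ) ^ (2 * c * (r + 1)) = ((1 + 3 / 10 : ℝ) ^ (c * (r + 1))) ^ 2 := by
    rw [← pow_mul, show (13 / 10 : ℝ) = 1 + 3 / 10 by norm_num,
      show 2 * c * (r + 1) = c * (r + 1) * 2 by ring]
  rw [h2]
  push_cast at h1
  have hr : (0 : ℝ) ≤ r := Nat.cast_nonneg r
  have hc0 : (0 : ℝ) ≤ c := Nat.cast_nonneg c
  have h3 : (c : ℝ) * ((r : ℝ) + 1) * (3 / 10) ≤ (1 + 3 / 10 : ℝ) ^ (c * (r + 1)) := by linarith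
  have h4 : 0 ≤ (c : ℝ) * ((r : ℝ) + 1) * (3 / 10) := by positivity
  have h5 : ((c : ℝ) * ((r : ℝ) + 1) * (3 / 10)) ^ 2 ≤ ((1 + 3 / 10 : ℝ) ^ (c * (r + 1))) ^ 2 :=
    pow_le_pow_left₀ h4 h3 2
  have h6 : D ≤ (c : ℝ) ^ 2 * (9 / 100) := by nlinarith
  calc D * ((r : ℝ) + 1) ^ 2 ≤ ((c : ℝ) ^ 2 * (9 / 100)) * ((r : ℝ) + 1) ^ 2 :=
        mul_le_mul_of_nonneg_right h6 (by positivity)
    _ = ((c : ℝ) * ((r : ℝ) + 1) * (3 / 10)) ^ 2 := by ring
    _ ≤ _ := h5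

theorem count_mid (C₀ : ℝ) (hC₀ : 0 ≤ C₀) : ∃ M₀ : ℝ, 1 ≤ M₀ ∧ ∀ D : ℝ, 1 ≤ D → ∃ C : ℝ, 1 ≤ C ∧
    ∀ (r : ℕ) (A B : ℤ), ∀ hh : Pt A B → ℝ, IsCan C₀ hh →
    ∀ (N : ℕ) (P : Fin N → Pt A B) (x : Fin N → ℤ),
      (∀ i, IsInt (P i) (x i)) → Function.Injective x → RankLe r P →
      (∀ i, Real.exp (M₀ * ell A B) ≤ x i) →
      (∀ i, (x i : ℝ) < Real.exp (D * ((r : ℝ) + 1) ^ 2 * ell A B)) →
      (N : ℝ) ≤ C * ((r : ℝ) + 1) * pk r := by
  obtain ⟨M₀, hM, hW⟩ := window_count C₀ hC₀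
  refine ⟨M₀, hM, fun D hD => ?_⟩
  obtain ⟨c, hc⟩ := exists_nat_ge (4 * D)
  have hc1 : (4 : ℝ) ≤ c := by linarith
  refine ⟨2 * c, by linarith, ?_⟩
  intro r A B hh hcan N P x hint hinj hrank hlo hhi
  have hl0 : 0 < ell A B := lt_of_lt_of_le (by norm_num) (ell_ge A B)
  have hpos : 0 < M₀ * ell A B := by positivity
  have hq := D2_pow D hD c r hc
  have hx0 : ∀ i, (0 : ℝ) < x i := fun i => (Real.exp_pos _).trans_le (hlo i)
  have hL1 : ∀ i, M₀ * ell A B ≤ Real.log (x i) := fun i =>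
    (Real.le_log_iff_exp_le (hx0 i)).2 (hlo i)
  have hL2 : ∀ i, Real.log (x i) < M₀ * ell A B * (13 / 10 : ℝ) ^ (2 * c * (r + 1)) := by
    intro i
    have h1 : Real.log (x i) < D * ((r : ℝ) + 1) ^ 2 * ell A B :=
      (Real.log_lt_iff_lt_exp (hx0 i)).2 (hhi i)
    have h2 : D * ((r : ℝ) + 1) ^ 2 * ell A B ≤
        (13 / 10 : ℝ) ^ (2 * c * (r + 1)) * ell A B := mul_le_mul_of_nonneg_right hq hl0.le
    have h3 : (13 / 10 : ℝ) ^ (2 * c * (r + 1)) * ell A B ≤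
        M₀ * ((13 / 10 : ℝ) ^ (2 * c * (r + 1)) * ell A B) :=
      le_mul_of_one_le_left (by positivity) hM
    calc Real.log (x i) < _ := h1
      _ ≤ _ := h2
      _ ≤ _ := h3
      _ = _ := by ring
  have hk : ∀ i, ∃ k, k < 2 * c * (r + 1) ∧ M₀ * ell A B * (13 / 10 : ℝ) ^ k ≤ Real.log (x i) ∧
      Real.log (x i) ≤ 13 / 10 * (M₀ * ell A B * (13 / 10 : ℝ) ^ k) := by
    intro i
    classical
    have hex : ∃ m : ℕ, Real.log (x i) < M₀ * ell A B * (13 / 10 : ℝ) ^ m := ⟨_, hL2 i⟩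
    have hs := Nat.find_spec hex
    have hle : Nat.find hex ≤ 2 * c * (r + 1) := Nat.find_min' hex (hL2 i)
    have hne : Nat.find hex ≠ 0 := by
      intro h0
      rw [h0, pow_zero, mul_one] at hs
      exact absurd hs (not_lt.2 (hL1 i))
    obtain ⟨k, hk⟩ := Nat.exists_eq_succ_of_ne_zero hne
    refine ⟨k, by omega, ?_, ?_⟩
    · exact not_lt.1 (Nat.find_min hex (by omega))
    · rw [hk, Nat.succ_eq_add_one, pow_succ] at hs
      refine hs.le.trans (le_of_eq ?_)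
      ring
  choose κ hκ using hk
  have hcard : N = ∑ b ∈ Finset.range (2 * c * (r + 1)),
      (Finset.univ.filter (fun i : Fin N => κ i = b)).card := by
    rw [← Finset.card_eq_sum_card_fiberwise (f := κ) (s := Finset.univ)
      (t := Finset.range (2 * c * (r + 1))) (fun i _ => by
        simpa using (hκ i).1)]
    simp
  have hfib : ∀ b : ℕ, ((Finset.univ.filter (fun i : Fin N => κ i = b)).card : ℝ) ≤ pk r := by
    intro b
    have hmem : ∀ j, κ ((Finset.univ.filter (fun i : Fin N => κ i = b)).orderEmbOfFin rfl j) = b := by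
      intro j
      have := Finset.orderEmbOfFin_mem (Finset.univ.filter (fun i : Fin N => κ i = b)) rfl j
      exact (Finset.mem_filter.1 this).2
    refine hW A B hh hcan (M₀ * ell A B * (13 / 10 : ℝ) ^ b) ?_ r _
      (fun j => P ((Finset.univ.filter (fun i : Fin N => κ i = b)).orderEmbOfFin rfl j))
      (fun j => x ((Finset.univ.filter (fun i : Fin N => κ i = b)).orderEmbOfFin rfl j))
      ?_ ?_ ?_ ?_ ?_ ?_
    · exact le_mul_of_one_le_right hpos.le (one_le_pow₀ (by norm_num))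
    · intro j; exact hint _
    · intro j j' hj
      exact (Finset.orderEmbOfFin _ rfl).injective (hinj hj)
    · intro f hf
      exact hrank (fun t => (Finset.univ.filter (fun i : Fin N => κ i = b)).orderEmbOfFin rfl (f t)) hf
    · intro j
      have := hx0 ((Finset.univ.filter (fun i : Fin N => κ i = b)).orderEmbOfFin rfl j)
      exact_mod_cast this
    · intro j
      have := (hκ ((Finset.univ.filter (fun i : Fin N => κ i = b)).orderEmbOfFin rfl j)).2.1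
      rwa [hmem j] at this
    · intro j
      have := (hκ ((Finset.univ.filter (fun i : Fin N => κ i = b)).orderEmbOfFin rfl j)).2.2
      rwa [hmem j] at this
  have hfin : (N : ℝ) ≤ ∑ b ∈ Finset.range (2 * c * (r + 1)), pk r := by
    calc (N : ℝ) = ((∑ b ∈ Finset.range (2 * c * (r + 1)),
        (Finset.univ.filter (fun i : Fin N => κ i = b)).card : ℕ) : ℝ) := by rw [← hcard]
      _ ≤ _ := by
        rw [Nat.cast_sum]
        exact Finset.sum_le_sum fun b _ => hfib b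
  rw [Finset.sum_const, Finset.card_range, nsmul_eq_mul] at hfin
  push_cast at hfin
  exact hfin

end Pool.Agent.LibHU64
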