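import Pool.Agent.LibHU64.D1
import Pool.Agent.LibHU64.D2

/-!
ROW D3 (SHORT/MEDIUM). For large `r` at most `2^(r+1) - r - 2` integral points are larger than an absolute power of the coefficients (cites D1, D2 as stated).

PLAN. `D` from `count_high`, `M₀` and `C` (for this `D`) from `count_mid`. Split the indices according to `x i < exp (D (r+1)² ℓ)`; subfamilies via `Finset.equivFin` (or
`Fintype.card` of the subtypes); `RankLe` passes to subfamilies. `N ≤ r pk r + C (r+1) pk r ≤ 2 C (r+1) pk r = 6 C (r+1)³ 2^(5r/6)`, and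
`6 C (r+1)³ 2^(5r/6) + r + 2 ≤ 2^(r+1)` for `r ≥ r₀` (`2^(r/6)` beats `(r+1)³`: e.g. limits `tendsto_pow_const_div_const_pow_of_one_lt` or `Real` asymptotics; only
existence of `r₀` is needed).
-/

set_option autoImplicit false

open WeierstrassCurve Pool.Agent.LibDP24

namespace Pool.Agent.LibHU64

private theorem D3_sub {G : Type*} [AddCommGroup G] {r N n : ℕ} {P : Fin N → G} (h : RankLe r P)
    (g : Fin n → Fin N) : RankLe r (fun i => P (g i)) := fun f => h (fun i => g (f i))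

/-- Polynomials are smaller than `2 ^ (r / 6)`. -/
private theorem D3_num (C : ℝ) (hC : 1 ≤ C) : ∃ r₀ : ℕ, ∀ r : ℕ, r₀ ≤ r →
    2 * C * ((r : ℝ) + 1) * pk r + r + 2 ≤ (2 : ℝ) ^ (r + 1) := by
  have hb : (1 : ℝ) < (2 : ℝ) ^ (1 / 6 : ℝ) := Real.one_lt_rpow one_lt_two (by norm_num)
  have h1 := tendsto_pow_const_div_const_pow_of_one_lt 3 hb
  have hpos : (0 : ℝ) < 1 / (4 * (6 * C + 2)) := by positivity
  have h2 := (h1.eventually_lt_const hpos).and (Filter.eventually_ge_atTop 1)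
  obtain ⟨r₀, hr₀⟩ := Filter.eventually_atTop.1 h2
  refine ⟨r₀, fun r hr => ?_⟩
  obtain ⟨h3, h4⟩ := hr₀ r hr
  have hr1 : (1 : ℝ) ≤ r := by exact_mod_cast h4
  have hb0 : (0 : ℝ) < ((2 : ℝ) ^ (1 / 6 : ℝ)) ^ r := by positivity
  rw [div_lt_div_iff₀ hb0 (by positivity)] at h3
  have e1 : ((2 : ℝ) ^ (1 / 6 : ℝ)) ^ r * (2 : ℝ) ^ (5 / 6 * (r : ℝ)) = (2 : ℝ) ^ r := by
    rw [← Real.rpow_natCast, ← Real.rpow_mul two_pos.le, ← Real.rpow_add two_pos,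
      ← Real.rpow_natCast]
    congr 1
    ring
  obtain ⟨Q, hQ⟩ : ∃ Q : ℝ, Q = (2 : ℝ) ^ (5 / 6 * (r : ℝ)) := ⟨_, rfl⟩
  obtain ⟨b, hb'⟩ : ∃ b : ℝ, b = ((2 : ℝ) ^ (1 / 6 : ℝ)) ^ r := ⟨_, rfl⟩
  have hQ1 : 1 ≤ Q := by
    rw [hQ]
    exact Real.one_le_rpow one_le_two (by positivity)
  unfold pk
  rw [← hQ, ← hb'] at e1
  rw [← hb'] at h3
  rw [← hQ, pow_succ (2 : ℝ) r, ← e1]
  have h5 : ((r : ℝ) + 1) ^ 3 ≤ 8 * (r : ℝ) ^ 3 := by
    have : (r : ℝ) + 1 ≤ 2 * r := by linarith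
    calc ((r : ℝ) + 1) ^ 3 ≤ (2 * (r : ℝ)) ^ 3 := pow_le_pow_left₀ (by linarith) this 3
      _ = 8 * (r : ℝ) ^ 3 := by ring
  have h6 : (6 * C + 2) * ((r : ℝ) + 1) ^ 3 ≤ 2 * b := by nlinarith
  have h7 : (r : ℝ) + 2 ≤ 2 * ((r : ℝ) + 1) ^ 3 := by
    have : (1 : ℝ) ≤ ((r : ℝ) + 1) ^ 2 := by nlinarith
    nlinarith
  have h8 : (r : ℝ) + 2 ≤ 2 * ((r : ℝ) + 1) ^ 3 * Q := by
    have : 0 ≤ 2 * ((r : ℝ) + 1) ^ 3 := by positivity
    nlinarith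
  have h9 := mul_le_mul_of_nonneg_right h6 (by linarith : (0 : ℝ) ≤ Q)
  nlinarith

theorem count_all (hPB : PB) (C₀ : ℝ) (hC₀ : 0 ≤ C₀) : ∃ M₀ : ℝ, 1 ≤ M₀ ∧ ∃ r₀ : ℕ,
    ∀ r : ℕ, r₀ ≤ r → ∀ (A B : ℤ), 4 * A ^ 3 + 27 * B ^ 2 ≠ 0 → ∀ hh : Pt A B → ℝ, IsCan C₀ hh →
    ∀ (N : ℕ) (P : Fin N → Pt A B) (x : Fin N → ℤ),
      (∀ i, IsInt (P i) (x i)) → Function.Injective x → RankLe r P →
      (∀ i, Real.exp (M₀ * ell A B) ≤ x i) → N + r + 2 ≤ 2 ^ (r + 1) := by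
  classical
  obtain ⟨D, hD1, H1⟩ := count_high hPB C₀ hC₀
  obtain ⟨M₀, hM1, H2⟩ := count_mid C₀ hC₀
  obtain ⟨C, hC1, H2⟩ := H2 D hD1
  obtain ⟨r₀, hr₀⟩ := D3_num C hC1
  refine ⟨M₀, hM1, r₀, fun r hr A B hAB hh hcan N P x hP hx hrk hlow => ?_⟩
  have hpk : 3 ≤ pk r := pk_ge r
  have hr0 : (0 : ℝ) ≤ r := Nat.cast_nonneg r
  obtain ⟨S, hS⟩ : ∃ S : Finset (Fin N), ∀ i, i ∈ S ↔
      (x i : ℝ) < Real.exp (D * ((r : ℝ) + 1) ^ 2 * ell A B) :=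
    ⟨Finset.univ.filter fun i => (x i : ℝ) < Real.exp (D * ((r : ℝ) + 1) ^ 2 * ell A B),
      fun i => by simp⟩
  have hcard : S.card + Sᶜ.card = N := by
    rw [Finset.card_add_card_compl, Fintype.card_fin]
  have h1 : (S.card : ℝ) ≤ C * ((r : ℝ) + 1) * pk r := by
    refine H2 r A B hh hcan S.card (fun i => P (S.equivFin.symm i)) (fun i => x (S.equivFin.symm i))
      (fun i => hP _) ?_ (D3_sub hrk _) (fun i => hlow _) ?_
    · intro i j hij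
      exact S.equivFin.symm.injective (Subtype.ext (hx hij))
    · intro i
      exact (hS _).1 (S.equivFin.symm i).2
  have h2 : (Sᶜ.card : ℝ) ≤ r * pk r := by
    refine H1 r A B hAB hh hcan Sᶜ.card (fun i => P (Sᶜ.equivFin.symm i))
      (fun i => x (Sᶜ.equivFin.symm i)) (fun i => hP _) ?_ (D3_sub hrk _) ?_
    · intro i j hij
      exact Sᶜ.equivFin.symm.injective (Subtype.ext (hx hij))
    · intro i
      have h3 := Finset.mem_compl.1 (Sᶜ.equivFin.symm i).2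
      exact not_lt.1 fun h4 => h3 ((hS _).2 h4)
  have h3 := hr₀ r hr
  have h4 : (N : ℝ) = S.card + Sᶜ.card := by exact_mod_cast hcard.symm
  have h5 : (r : ℝ) * pk r ≤ C * ((r : ℝ) + 1) * pk r := by
    refine mul_le_mul_of_nonneg_right ?_ (by linarith)
    nlinarith
  have h6 : (N : ℝ) + r + 2 ≤ (2 : ℝ) ^ (r + 1) := by linarith
  exact_mod_cast h6

end Pool.Agent.LibHU64
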