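import Pool.Agent.LibDP24.Defs2

/-!
MP_a1107e_nt, Hall-Lang inequality with absolute constants up to `2 ^ (r + 1) - r - 2` pairs of points: definitions.
-/

set_option autoImplicit false

namespace Pool.Agent.LibHU64

/-- the packing bound: at most `pk r` unit vectors in `ℝ ^ r` have pairwise scalar products of square at most `2 / 5` -/
noncomputable def pk (r : ℕ) : ℝ := 3 * ((r : ℝ) + 1) ^ 2 * (2 : ℝ) ^ (5 / 6 * (r : ℝ))

/-- every `r + 1` of the elements are linearly dependent -/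
def RankLe {G : Type*} [AddCommGroup G] (r : ℕ) {n : ℕ} (P : Fin n → G) : Prop :=
  ∀ f : Fin (r + 1) → Fin n, ¬ LinearIndependent ℤ (P ∘ f)

theorem pk_ge (r : ℕ) : 3 ≤ pk r := by
  unfold pk
  have h1 : (1 : ℝ) ≤ ((r : ℝ) + 1) ^ 2 := by
    have : (0 : ℝ) ≤ r := Nat.cast_nonneg r
    nlinarith
  have h2 : (1 : ℝ) ≤ (2 : ℝ) ^ (5 / 6 * (r : ℝ)) := Real.one_le_rpow (by norm_num) (by positivity)
  nlinarith

theorem pk_mono {r s : ℕ} (h : r ≤ s) : pk r ≤ pk s := by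
  unfold pk
  have h1 : (r : ℝ) ≤ s := by exact_mod_cast h
  have h0 : (0 : ℝ) ≤ r := Nat.cast_nonneg r
  have h2 : (2 : ℝ) ^ (5 / 6 * (r : ℝ)) ≤ (2 : ℝ) ^ (5 / 6 * (s : ℝ)) :=
    Real.rpow_le_rpow_of_exponent_le (by norm_num) (by linarith)
  gcongr

end Pool.Agent.LibHU64
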