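import Pool.Agent.LibHU64.D3
import Pool.Agent.LibDP24.G6

/-!
ROW E1 (MEDIUM). The theorem: absolute constants.
-/

set_option autoImplicit false

open WeierstrassCurve Pool.Agent.LibDP24

namespace Pool.Agent.LibHU64

private theorem E1_indep {A B : ℤ} {r : ℕ} (Γ : AddSubgroup (Pt A B)) (hr : Module.rank ℤ Γ ≤ r)
    {N : ℕ} (P : Fin N → Pt A B) (hP : ∀ i, P i ∈ Γ) (f : Fin (r + 1) → Fin N) :
    ¬ LinearIndependent ℤ (P ∘ f) := by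
  intro hli
  have h1 : LinearIndependent ℤ (fun i : Fin (r + 1) => (⟨P (f i), hP (f i)⟩ : Γ)) := by
    apply LinearIndependent.of_comp (Γ.subtype.toIntLinearMap)
    exact hli
  have h2 := h1.cardinal_le_rank
  have h3 : ((r + 1 : ℕ) : Cardinal) ≤ ((r : ℕ) : Cardinal) := by
    refine le_trans ?_ (h2.trans hr)
    simp
  have h4 : r + 1 ≤ r := by exact_mod_cast h3
  omega

private theorem E1_aa {A B : ℤ} (hD : 4 * A ^ 3 + 27 * B ^ 2 ≠ 0) :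
    aa A B ≤ 4 * max |(A : ℝ)| |(B : ℝ)| := by
  have h1 : (1 : ℝ) ≤ max |(A : ℝ)| |(B : ℝ)| := by
    by_cases hA : A = 0
    · have hB : B ≠ 0 := by
        rintro rfl
        apply hD
        rw [hA]
        norm_num
      have h2 : (1 : ℤ) ≤ |B| := Int.one_le_abs hB
      have h3 : (1 : ℝ) ≤ |(B : ℝ)| := by exact_mod_cast h2
      exact h3.trans (le_max_right _ _)
    · have h2 : (1 : ℤ) ≤ |A| := Int.one_le_abs hA
      have h3 : (1 : ℝ) ≤ |(A : ℝ)| := by exact_mod_cast h2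
      exact h3.trans (le_max_left _ _)
  have hA := le_max_left |(A : ℝ)| |(B : ℝ)|
  have hB := le_max_right |(A : ℝ)| |(B : ℝ)|
  unfold aa
  linarith

private theorem E1_eqn {A B x y : ℤ} (h : (E A B).toAffine.Nonsingular (x : ℚ) (y : ℚ)) :
    y ^ 2 = x ^ 3 + A * x + B := by
  have h1 := (Affine.equation_iff _ _).1 h.1
  simp at h1
  exact_mod_cast h1

private theorem E1_bound {A B x y : ℤ} {K' : ℝ} (hK' : 1 ≤ K')
    (hD : 4 * A ^ 3 + 27 * B ^ 2 ≠ 0)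
    (hE : y ^ 2 = x ^ 3 + A * x + B) (hx : (x : ℝ) < aa A B ^ K') :
    max |(x : ℝ)| |(y : ℝ)| ≤
      (4 : ℝ) ^ (2 * K' + 1) * (max |(A : ℝ)| |(B : ℝ)|) ^ (2 * K' + 1) := by
  have ha := aa_ge A B
  have ha0 : (0 : ℝ) < aa A B := by linarith
  have h1 : aa A B ≤ aa A B ^ K' := by
    calc aa A B = aa A B ^ (1 : ℝ) := (Real.rpow_one _).symm
      _ ≤ aa A B ^ K' := Real.rpow_le_rpow_of_exponent_le (by linarith) hK'
  have h2 := x_ge hE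
  have h3 : |(x : ℝ)| ≤ aa A B ^ K' := by
    rw [abs_le]
    constructor
    · linarith
    · exact hx.le
  have h4 : max |(x : ℝ)| 1 ≤ aa A B ^ K' := _root_.max_le h3 (by linarith)
  have h5 := Pool.Agent.LibDP24.max_le hE
  have h6 : (max |(x : ℝ)| 1) ^ 2 ≤ (aa A B ^ K') ^ 2 :=
    pow_le_pow_left₀ (le_trans zero_le_one (le_max_right _ _)) h4 2
  have h7 : aa A B * (aa A B ^ K') ^ 2 = aa A B ^ (2 * K' + 1) := by
    rw [Real.rpow_add ha0, Real.rpow_one, mul_comm (2 : ℝ) K', Real.rpow_mul ha0.le,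
      Real.rpow_two, mul_comm]
  have h8 : aa A B ^ (2 * K' + 1) ≤ (4 * max |(A : ℝ)| |(B : ℝ)|) ^ (2 * K' + 1) :=
    Real.rpow_le_rpow ha0.le (E1_aa hD) (by linarith)
  rw [Real.mul_rpow (by norm_num) (le_trans (abs_nonneg _) (le_max_left _ _))] at h8
  calc max |(x : ℝ)| |(y : ℝ)| ≤ aa A B * (max |(x : ℝ)| 1) ^ 2 := h5
    _ ≤ aa A B * (aa A B ^ K') ^ 2 := mul_le_mul_of_nonneg_left h6 ha0.le
    _ = aa A B ^ (2 * K' + 1) := h7
    _ ≤ _ := h8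

private theorem E1_one {A B : ℤ} (hD : 4 * A ^ 3 + 27 * B ^ 2 ≠ 0) :
    (1 : ℝ) ≤ max |(A : ℝ)| |(B : ℝ)| := by
  by_cases hA : A = 0
  · have hB : B ≠ 0 := by
      rintro rfl
      apply hD
      rw [hA]
      norm_num
    have h2 : (1 : ℤ) ≤ |B| := Int.one_le_abs hB
    have h3 : (1 : ℝ) ≤ |(B : ℝ)| := by exact_mod_cast h2
    exact h3.trans (le_max_right _ _)
  · have h2 : (1 : ℤ) ≤ |A| := Int.one_le_abs hA
    have h3 : (1 : ℝ) ≤ |(A : ℝ)| := by exact_mod_cast h2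
    exact h3.trans (le_max_left _ _)

/-- the statement for given constants and a given rank -/
private def E1_St (K M : ℝ) (r : ℕ) : Prop := ∀ (A B : ℤ),
    4 * A ^ 3 + 27 * B ^ 2 ≠ 0 → ∀ Γ : AddSubgroup (Pt A B), Module.rank ℤ Γ ≤ r →
      {x : ℤ | ∃ (y : ℤ) (h : (E A B).toAffine.Nonsingular (x : ℚ) (y : ℚ)),
        (Affine.Point.some (x : ℚ) (y : ℚ) h : Pt A B) ∈ Γ ∧
        K * (max |(A : ℝ)| |(B : ℝ)|) ^ M < max |(x : ℝ)| |(y : ℝ)|}.Finite ∧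
      {x : ℤ | ∃ (y : ℤ) (h : (E A B).toAffine.Nonsingular (x : ℚ) (y : ℚ)),
        (Affine.Point.some (x : ℚ) (y : ℚ) h : Pt A B) ∈ Γ ∧
        K * (max |(A : ℝ)| |(B : ℝ)|) ^ M < max |(x : ℝ)| |(y : ℝ)|}.ncard + r + 2 ≤ 2 ^ (r + 1)

private theorem E1_mono {K M K' M' : ℝ} {r : ℕ} (hK : 0 < K) (hKK : K ≤ K') (hMM : M ≤ M')
    (h : E1_St K M r) : E1_St K' M' r := by
  intro A B hD Γ hr
  obtain ⟨h1, h2⟩ := h A B hD Γ hr
  have hX := E1_one hD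
  have hle : K * (max |(A : ℝ)| |(B : ℝ)|) ^ M ≤ K' * (max |(A : ℝ)| |(B : ℝ)|) ^ M' :=
    mul_le_mul hKK (Real.rpow_le_rpow_of_exponent_le hX hMM)
      (Real.rpow_nonneg (by linarith) _) (by linarith)
  have hsub : {x : ℤ | ∃ (y : ℤ) (h : (E A B).toAffine.Nonsingular (x : ℚ) (y : ℚ)),
        (Affine.Point.some (x : ℚ) (y : ℚ) h : Pt A B) ∈ Γ ∧
        K' * (max |(A : ℝ)| |(B : ℝ)|) ^ M' < max |(x : ℝ)| |(y : ℝ)|} ⊆
      {x : ℤ | ∃ (y : ℤ) (h : (E A B).toAffine.Nonsingular (x : ℚ) (y : ℚ)),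
        (Affine.Point.some (x : ℚ) (y : ℚ) h : Pt A B) ∈ Γ ∧
        K * (max |(A : ℝ)| |(B : ℝ)|) ^ M < max |(x : ℝ)| |(y : ℝ)|} := by
    rintro x ⟨y, hn, hmem, hlt⟩
    exact ⟨y, hn, hmem, hle.trans_lt hlt⟩
  refine ⟨h1.subset hsub, le_trans ?_ h2⟩
  have h3 := Set.ncard_le_ncard hsub h1
  omega

private theorem E1_large {C₀ M₀ : ℝ} {r : ℕ} (hM₀ : 1 ≤ M₀)
    (hcan : ∀ A B : ℤ, 4 * A ^ 3 + 27 * B ^ 2 ≠ 0 → ∃ hh : Pt A B → ℝ, IsCan C₀ hh)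
    (hcount : ∀ (A B : ℤ), 4 * A ^ 3 + 27 * B ^ 2 ≠ 0 → ∀ hh : Pt A B → ℝ, IsCan C₀ hh →
    ∀ (N : ℕ) (P : Fin N → Pt A B) (x : Fin N → ℤ),
      (∀ i, IsInt (P i) (x i)) → Function.Injective x → RankLe r P →
      (∀ i, Real.exp (M₀ * ell A B) ≤ x i) → N + r + 2 ≤ 2 ^ (r + 1)) :
    E1_St ((4 : ℝ) ^ (2 * M₀ + 1)) (2 * M₀ + 1) r := by
  intro A B hD Γ hr
  set V : Set ℤ := {x : ℤ | ∃ (y : ℤ) (h : (E A B).toAffine.Nonsingular (x : ℚ) (y : ℚ)),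
        (Affine.Point.some (x : ℚ) (y : ℚ) h : Pt A B) ∈ Γ ∧
        (4 : ℝ) ^ (2 * M₀ + 1) * (max |(A : ℝ)| |(B : ℝ)|) ^ (2 * M₀ + 1) <
          max |(x : ℝ)| |(y : ℝ)|} with hV
  have key : ∀ W : Finset ℤ, (W : Set ℤ) ⊆ V → W.card + r + 2 ≤ 2 ^ (r + 1) := by
    intro W hWV
    have hW : ∀ x ∈ W, ∃ (y : ℤ) (h : (E A B).toAffine.Nonsingular (x : ℚ) (y : ℚ)),
        (Affine.Point.some (x : ℚ) (y : ℚ) h : Pt A B) ∈ Γ ∧
        Real.exp (M₀ * ell A B) ≤ x := by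
      intro x hx
      obtain ⟨y, h, hy, hlt⟩ := hWV hx
      refine ⟨y, h, hy, ?_⟩
      have h1 : aa A B ^ M₀ = Real.exp (M₀ * ell A B) := by
        rw [← exp_ell A B, ← Real.exp_mul, mul_comm]
      rw [← h1]
      by_contra hcon
      exact absurd (E1_bound hM₀ hD (E1_eqn h) (not_le.1 hcon)) (not_le.2 hlt)
    choose! y h hyh hge using hW
    obtain ⟨hh, hcc⟩ := hcan A B hD
    let e : Fin W.card ≃ W := W.equivFin.symm
    let P : Fin W.card → Pt A B := fun i =>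
      Affine.Point.some ((e i : ℤ) : ℚ) ((y (e i) : ℤ) : ℚ) (h (e i) (e i).2)
    exact hcount A B hD hh hcc W.card P (fun i => (e i : ℤ))
      (fun i => ⟨y (e i), h (e i) (e i).2, rfl⟩)
      (fun i j hij => e.injective (Subtype.ext hij))
      (E1_indep Γ hr P (fun i => hyh (e i) (e i).2))
      (fun i => hge (e i) (e i).2)
  have hfin : V.Finite := by
    by_contra hinf
    obtain ⟨W, hWV, hWc⟩ := Set.Infinite.exists_subset_card_eq hinf (2 ^ (r + 1))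
    have := key W hWV
    omega
  refine ⟨hfin, ?_⟩
  have h1 := key hfin.toFinset (by simp)
  rwa [← Set.ncard_eq_toFinset_card V hfin] at h1

theorem finalU (hPB : PB) : ∃ K M : ℝ, 0 < K ∧ 0 < M ∧ ∀ (r : ℕ) (A B : ℤ),
    4 * A ^ 3 + 27 * B ^ 2 ≠ 0 → ∀ Γ : AddSubgroup (Pt A B), Module.rank ℤ Γ ≤ r →
      {x : ℤ | ∃ (y : ℤ) (h : (E A B).toAffine.Nonsingular (x : ℚ) (y : ℚ)),
        (Affine.Point.some (x : ℚ) (y : ℚ) h : Pt A B) ∈ Γ ∧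
        K * (max |(A : ℝ)| |(B : ℝ)|) ^ M < max |(x : ℝ)| |(y : ℝ)|}.Finite ∧
      {x : ℤ | ∃ (y : ℤ) (h : (E A B).toAffine.Nonsingular (x : ℚ) (y : ℚ)),
        (Affine.Point.some (x : ℚ) (y : ℚ) h : Pt A B) ∈ Γ ∧
        K * (max |(A : ℝ)| |(B : ℝ)|) ^ M < max |(x : ℝ)| |(y : ℝ)|}.ncard + r + 2 ≤ 2 ^ (r + 1) := by
  obtain ⟨C₀, hC₀, hcan⟩ := exists_can
  obtain ⟨M₀, hM₀, r₀, hcount⟩ := count_all hPB C₀ (by linarith)
  choose Kf Mf hKf hMf Hf using fun r => final2 hPB r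
  have hsK : 0 ≤ ∑ r ∈ Finset.range r₀, Kf r := Finset.sum_nonneg fun r _ => (hKf r).le
  have hsM : 0 ≤ ∑ r ∈ Finset.range r₀, Mf r := Finset.sum_nonneg fun r _ => (hMf r).le
  have h4 : (0 : ℝ) < (4 : ℝ) ^ (2 * M₀ + 1) := by positivity
  refine ⟨(4 : ℝ) ^ (2 * M₀ + 1) + ∑ r ∈ Finset.range r₀, Kf r,
    (2 * M₀ + 1) + ∑ r ∈ Finset.range r₀, Mf r, by positivity, by linarith, ?_⟩
  intro r
  rcases le_or_gt r₀ r with hr | hr
  · exact E1_mono h4 (by linarith) (by linarith)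
      (E1_large hM₀ (fun A B hD => hcan A B hD) (fun A B hD => hcount r hr A B hD))
  · have hmem : r ∈ Finset.range r₀ := Finset.mem_range.2 hr
    have h5 : Kf r ≤ ∑ r ∈ Finset.range r₀, Kf r :=
      Finset.single_le_sum (fun i _ => (hKf i).le) hmem
    have h6 : Mf r ≤ ∑ r ∈ Finset.range r₀, Mf r :=
      Finset.single_le_sum (fun i _ => (hMf i).le) hmem
    exact E1_mono (hKf r) (by linarith) (by linarith) (fun A B hD => Hf r A B hD)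

end Pool.Agent.LibHU64
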