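import Pool.Agent.LibHU64.Defs

/-!
Counting by levels of the rank (abstract form).
-/

set_option autoImplicit false

namespace Pool.Agent.LibHU64

theorem rankLe_comp {G : Type*} [AddCommGroup G] {s n m : ℕ} {P : Fin n → G} (h : RankLe s P) (e : Fin m → Fin n) :
    RankLe s (P ∘ e) := fun f hf => h (e ∘ f) hf

/-- the case of a strictly increasing size -/
private theorem L1_mono {G : Type*} [AddCommGroup G] {r N : ℕ} {c : ℝ} (P : Fin N → G) (L : Fin N → ℝ)
    (hL : StrictMono L) (b : ℕ → ℝ) (hb : Monotone b) (hb0 : ∀ s, 0 ≤ b s)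
    (h0 : ∀ f : Fin 1 → Fin N, LinearIndependent ℤ (P ∘ f))
    (hcmp : ∀ (s : ℕ) (i : Fin N) (f : Fin s → Fin N), s ≤ r → LinearIndependent ℤ (P ∘ f) →
      ¬ LinearIndependent ℤ (Fin.cons (P i) (P ∘ f) : Fin (s + 1) → G) →
      ∀ t : Fin N, (∀ k, L t ≤ L (f k)) → L t ≤ c * L i)
    (hwin : ∀ (s : ℕ) (i : Fin N) (m : ℕ) (e : Fin m → Fin N), s ≤ r → Function.Injective e →
      RankLe s (P ∘ e) → (∀ j, L i ≤ L (e j)) → (∀ j, L (e j) ≤ c * L i) → (m : ℝ) ≤ b s) :
    ∀ s : ℕ, s ≤ r → ∀ (n : ℕ) (e : Fin n → Fin N), StrictMono e → RankLe s (P ∘ e) → (n : ℝ) ≤ s * b r := by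
  intro s
  induction s with
  | zero =>
    intro _ n e _ hr
    rcases Nat.eq_zero_or_pos n with h | h
    · subst h
      simp
    · exact absurd (h0 (fun _ => e ⟨0, h⟩)) (hr (fun _ => ⟨0, h⟩))
  | succ s ih =>
    intro hs n e he hr
    classical
    -- the tails of rank at most `s`
    have hex : ∃ j, j ≤ n ∧ ∀ f : Fin (s + 1) → Fin n, (∀ k, j ≤ (f k : ℕ)) → ¬ LinearIndependent ℤ (P ∘ e ∘ f) :=
      ⟨n, le_rfl, fun f hf => absurd (hf 0) (by have := (f 0).2; omega)⟩
    obtain ⟨hjn, hj⟩ := Nat.find_spec hex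
    set j := Nat.find hex with hjdef
    have hcast : (n : ℝ) = (j : ℝ) + ((n - j : ℕ) : ℝ) := by
      rw [Nat.cast_sub hjn]
      ring
    have htail : ((n - j : ℕ) : ℝ) ≤ s * b r := by
      refine ih (by omega) (n - j) (fun i => e ⟨j + i, by omega⟩) ?_ ?_
      · intro a a' haa
        exact he (by
          rw [Fin.lt_def] at haa ⊢
          simpa using haa)
      · intro f hf
        exact hj (fun k => ⟨j + f k, by omega⟩) (fun k => by simp) hf
    rcases Nat.eq_zero_or_pos j with hj0 | hjpos
    · rw [hcast, hj0]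
      push_cast
      have := hb0 r
      simp only [zero_add]
      rw [hj0] at htail
      linarith
    · have ht : j - 1 < j := by omega
      have hnot := Nat.find_min hex ht
      have htn : j - 1 < n := by omega
      have : ∃ f : Fin (s + 1) → Fin n, (∀ k, j - 1 ≤ (f k : ℕ)) ∧ LinearIndependent ℤ (P ∘ e ∘ f) := by
        by_contra hcon
        push Not at hcon
        exact hnot ⟨by omega, fun f hf => hcon f hf⟩
      obtain ⟨f, hf, hind⟩ := this
      have hkey : ∀ i : Fin n, L (e ⟨j - 1, htn⟩) ≤ c * L (e i) := by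
        intro i
        refine hcmp (s + 1) (e i) (e ∘ f) (by omega) hind ?_ _ ?_
        · intro hli
          refine hr (Fin.cons i f) ?_
          have heq : (P ∘ e) ∘ (Fin.cons i f : Fin (s + 1 + 1) → Fin n) =
              (Fin.cons (P (e i)) (P ∘ e ∘ f) : Fin (s + 1 + 1) → G) := by
            funext k
            refine Fin.cases ?_ (fun k => ?_) k
            · simp
            · simp
          rw [heq]
          exact hli
        · intro k
          refine hL.monotone (he.monotone ?_)
          rw [Fin.le_def]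
          exact hf k
      have hj_le : (j : ℝ) ≤ b r := by
        have h1 : ((j : ℕ) : ℝ) ≤ b (s + 1) := by
          refine hwin (s + 1) (e ⟨0, by omega⟩) j (fun a => e ⟨a, by omega⟩) hs ?_ ?_ ?_ ?_
          · intro a a' haa
            have := he.injective haa
            rw [Fin.mk.injEq] at this
            exact Fin.ext this
          · exact rankLe_comp (P := P ∘ e) hr (fun a => ⟨a, by omega⟩)
          · intro a
            refine hL.monotone (he.monotone ?_)
            rw [Fin.le_def]
            simp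
          · intro a
            refine le_trans (hL.monotone (he.monotone ?_)) (hkey _)
            rw [Fin.le_def]
            have := a.2
            simp only
            omega
        exact h1.trans (hb hs)
      rw [hcast]
      push_cast
      linarith

/-- Let `L` be the size of the members of a family of rank at most `r`. If in every minimal relation the smallest and the second
smallest member have comparable size, and windows `[X, c X]` contain at most `b s` members of a part of rank at most `s`,
then the family has at most `r * b r` members. -/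
theorem level_count {G : Type*} [AddCommGroup G] {r N : ℕ} {c : ℝ} (P : Fin N → G) (L : Fin N → ℝ)
    (hL : Function.Injective L) (hrank : RankLe r P) (b : ℕ → ℝ) (hb : Monotone b) (hb0 : ∀ s, 0 ≤ b s)
    (h0 : ∀ f : Fin 1 → Fin N, LinearIndependent ℤ (P ∘ f))
    (hcmp : ∀ (s : ℕ) (i : Fin N) (f : Fin s → Fin N), s ≤ r → LinearIndependent ℤ (P ∘ f) →
      ¬ LinearIndependent ℤ (Fin.cons (P i) (P ∘ f) : Fin (s + 1) → G) →
      ∀ t : Fin N, (∀ k, L t ≤ L (f k)) → L t ≤ c * L i)
    (hwin : ∀ (s : ℕ) (i : Fin N) (m : ℕ) (e : Fin m → Fin N), s ≤ r → Function.Injective e →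
      RankLe s (P ∘ e) → (∀ j, L i ≤ L (e j)) → (∀ j, L (e j) ≤ c * L i) → (m : ℝ) ≤ b s) :
    (N : ℝ) ≤ r * b r := by
  set σ := Tuple.sort L with hσ
  have hmono : StrictMono (L ∘ σ) :=
    (Tuple.monotone_sort L).strictMono_of_injective (hL.comp σ.injective)
  have hN := L1_mono (r := r) (c := c) (P ∘ σ) (L ∘ σ) hmono b hb hb0 (fun f => h0 (σ ∘ f))
    (fun s i f hs hf hd t ht => hcmp s (σ i) (σ ∘ f) hs hf hd (σ t) ht)
    (fun s i m e hs he hr h1 h2 => hwin s (σ i) m (σ ∘ e) hs (σ.injective.comp he) hr h1 h2)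
    r le_rfl N id strictMono_id (rankLe_comp (rankLe_comp hrank σ) id)
  exact hN

end Pool.Agent.LibHU64
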