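import Mathlib

/-!
Counting with geometric windows (abstract form).
-/

set_option autoImplicit false

namespace Pool.Agent.LibHU64

/-- If every part of the family in a window `[X, (1 + η) X]` has at most `b` members, and all members are in `[lo, lo (1 + η) ^ n)`,
then the family has at most `n b` members. -/
theorem mid_count {N n : ℕ} {η b lo : ℝ} (hη : 0 < η) (hlo : 0 < lo) (L : Fin N → ℝ) (h1 : ∀ i, lo ≤ L i)
    (h2 : ∀ i, L i < lo * (1 + η) ^ n)
    (hwin : ∀ X, lo ≤ X → ∀ (m : ℕ) (e : Fin m → Fin N), Function.Injective e → (∀ j, X ≤ L (e j)) →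
      (∀ j, L (e j) ≤ (1 + η) * X) → (m : ℝ) ≤ b) : (N : ℝ) ≤ n * b := by
  have hη1 : 1 ≤ 1 + η := by linarith
  have hk : ∀ i, ∃ k, k < n ∧ lo * (1 + η) ^ k ≤ L i ∧ L i ≤ (1 + η) * (lo * (1 + η) ^ k) := by
    intro i
    classical
    have hex : ∃ m : ℕ, L i < lo * (1 + η) ^ m := ⟨_, h2 i⟩
    have hs := Nat.find_spec hex
    have hle : Nat.find hex ≤ n := Nat.find_min' hex (h2 i)
    have hne : Nat.find hex ≠ 0 := by
      intro h0
      rw [h0, pow_zero, mul_one] at hs
      exact absurd hs (not_lt.2 (h1 i))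
    obtain ⟨k, hk⟩ := Nat.exists_eq_succ_of_ne_zero hne
    refine ⟨k, by omega, ?_, ?_⟩
    · exact not_lt.1 (Nat.find_min hex (by omega))
    · rw [hk, Nat.succ_eq_add_one, pow_succ] at hs
      refine hs.le.trans (le_of_eq ?_)
      ring
  choose κ hκ using hk
  have hcard : N = ∑ a ∈ Finset.range n, (Finset.univ.filter (fun i : Fin N => κ i = a)).card := by
    rw [← Finset.card_eq_sum_card_fiberwise (f := κ) (s := Finset.univ)
      (t := Finset.range n) (fun i _ => by simpa using (hκ i).1)]
    simp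
  have hfib : ∀ a : ℕ, ((Finset.univ.filter (fun i : Fin N => κ i = a)).card : ℝ) ≤ b := by
    intro a
    have hmem : ∀ j, κ ((Finset.univ.filter (fun i : Fin N => κ i = a)).orderEmbOfFin rfl j) = a := by
      intro j
      have := Finset.orderEmbOfFin_mem (Finset.univ.filter (fun i : Fin N => κ i = a)) rfl j
      exact (Finset.mem_filter.1 this).2
    refine hwin (lo * (1 + η) ^ a) ?_ _
      (fun j => (Finset.univ.filter (fun i : Fin N => κ i = a)).orderEmbOfFin rfl j) ?_ ?_ ?_
    · exact le_mul_of_one_le_right hlo.le (one_le_pow₀ hη1)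
    · intro j j' hj
      exact (Finset.orderEmbOfFin _ rfl).injective hj
    · intro j
      have := (hκ ((Finset.univ.filter (fun i : Fin N => κ i = a)).orderEmbOfFin rfl j)).2.1
      rwa [hmem j] at this
    · intro j
      have := (hκ ((Finset.univ.filter (fun i : Fin N => κ i = a)).orderEmbOfFin rfl j)).2.2
      rwa [hmem j] at this
  calc (N : ℝ) = ((∑ a ∈ Finset.range n,
      (Finset.univ.filter (fun i : Fin N => κ i = a)).card : ℕ) : ℝ) := by rw [← hcard]
    _ ≤ ∑ a ∈ Finset.range n, b := by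
      rw [Nat.cast_sum]
      exact Finset.sum_le_sum fun a _ => hfib a
    _ = n * b := by rw [Finset.sum_const, Finset.card_range, nsmul_eq_mul]

end Pool.Agent.LibHU64
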