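import Pool.Agent.LibHU64.E1

/-!
MP_a1107e_nt: outside a power saving set of curves there are at most `2 ^ (r + 1) - r - 2` pairs of integral points, `r` the rank.
-/

set_option autoImplicit false

open WeierstrassCurve Pool.Agent.LibDP24

namespace Pool.Agent.LibHU64

/-- almost all curves have no integral point with `log |x| ≤ H ^ (1 - ε)` (our `PowerSaving`; a hypothesis here, to keep the
imports light) -/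
def PSU : Prop := ∀ ε : ℝ, 0 < ε → ∃ δ : ℝ, 0 < δ ∧ ∃ K : ℝ, ∀ H : ℝ, 1 ≤ H →
    {p : ℤ × ℤ | |(p.1 : ℝ)| ≤ H ^ 2 ∧ |(p.2 : ℝ)| ≤ H ^ 3 ∧ 4 * p.1 ^ 3 + 27 * p.2 ^ 2 ≠ 0 ∧
      ∃ x y : ℤ, y ^ 2 = x ^ 3 + p.1 * x + p.2 ∧
        |(x : ℝ)| ≤ Real.exp (H ^ (1 - ε))}.Finite ∧
    ({p : ℤ × ℤ | |(p.1 : ℝ)| ≤ H ^ 2 ∧ |(p.2 : ℝ)| ≤ H ^ 3 ∧ 4 * p.1 ^ 3 + 27 * p.2 ^ 2 ≠ 0 ∧
      ∃ x y : ℤ, y ^ 2 = x ^ 3 + p.1 * x + p.2 ∧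
        |(x : ℝ)| ≤ Real.exp (H ^ (1 - ε))}.ncard : ℝ) ≤ K * H ^ (5 - δ)

private theorem PCU_eqn {A B x y : ℤ} (h : (E A B).toAffine.Nonsingular (x : ℚ) (y : ℚ)) :
    y ^ 2 = x ^ 3 + A * x + B := by
  have h1 := (Affine.equation_iff _ _).1 h.1
  simp at h1
  exact_mod_cast h1

/-- a power of `H` is smaller than `exp (H ^ (1 / 2))` for large `H` -/
private theorem PCU_exp (K M : ℝ) (hK : 0 < K) : ∃ H₀ : ℝ, 1 ≤ H₀ ∧ ∀ H : ℝ, H₀ ≤ H →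
    K * (H ^ 3) ^ M ≤ Real.exp (H ^ (1 - (1 / 2 : ℝ))) := by
  have h1 : Filter.Tendsto (fun H : ℝ => H ^ (1 / 2 : ℝ)) Filter.atTop Filter.atTop :=
    tendsto_rpow_atTop (by norm_num)
  have h2 : Filter.Tendsto (fun z : ℝ => z ^ (6 * M) / Real.exp z) Filter.atTop (nhds 0) := by
    have := tendsto_rpow_mul_exp_neg_mul_atTop_nhds_zero (6 * M) 1 one_pos
    refine this.congr fun z => ?_
    rw [neg_mul, one_mul, Real.exp_neg, div_eq_mul_inv]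
  have h3 := h2.comp h1
  have h4 : ∀ᶠ H : ℝ in Filter.atTop, (H ^ (1 / 2 : ℝ)) ^ (6 * M) / Real.exp (H ^ (1 / 2 : ℝ)) < 1 / K :=
    h3.eventually (gt_mem_nhds (by positivity))
  obtain ⟨H₀, hH₀⟩ := Filter.eventually_atTop.1 h4
  refine ⟨max H₀ 1, le_max_right _ _, fun H hH => ?_⟩
  have hH1 : 1 ≤ H := (le_max_right _ _).trans hH
  have hH0 : 0 ≤ H := by linarith
  have h5 := hH₀ H ((le_max_left _ _).trans hH)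
  have h6 : (H ^ (1 / 2 : ℝ)) ^ (6 * M) = (H ^ 3) ^ M := by
    rw [← Real.rpow_mul hH0, ← Real.rpow_natCast H 3, ← Real.rpow_mul hH0]
    congr 1
    push_cast
    ring
  rw [h6, div_lt_div_iff₀ (Real.exp_pos _) hK] at h5
  have h7 : (1 - (1 / 2 : ℝ)) = 1 / 2 := by norm_num
  rw [h7]
  linarith

/-- If `E(ℚ)` has a subgroup of rank at most `r` with more than `2 ^ (r + 1) - r - 2` pairs of integral points, then it has a small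
integral point. -/
private theorem PCU_small (hPB : PB) : ∃ K M : ℝ, 0 < K ∧ 0 < M ∧ ∀ (r : ℕ) (A B : ℤ),
    4 * A ^ 3 + 27 * B ^ 2 ≠ 0 → ∀ Γ : AddSubgroup (Pt A B), Module.rank ℤ Γ ≤ r →
      ¬ ({x : ℤ | ∃ (y : ℤ) (h : (E A B).toAffine.Nonsingular (x : ℚ) (y : ℚ)),
          (Affine.Point.some (x : ℚ) (y : ℚ) h : Pt A B) ∈ Γ}.Finite ∧
        {x : ℤ | ∃ (y : ℤ) (h : (E A B).toAffine.Nonsingular (x : ℚ) (y : ℚ)),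
          (Affine.Point.some (x : ℚ) (y : ℚ) h : Pt A B) ∈ Γ}.ncard + r + 2 ≤ 2 ^ (r + 1)) →
      ∃ x y : ℤ, y ^ 2 = x ^ 3 + A * x + B ∧
        |(x : ℝ)| ≤ K * (max |(A : ℝ)| |(B : ℝ)|) ^ M := by
  obtain ⟨K, M, hK, hM, hfin⟩ := finalU hPB
  refine ⟨K, M, hK, hM, fun r A B hD Γ hr hnot => ?_⟩
  by_contra hno
  push Not at hno
  apply hnot
  have hset : {x : ℤ | ∃ (y : ℤ) (h : (E A B).toAffine.Nonsingular (x : ℚ) (y : ℚ)),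
          (Affine.Point.some (x : ℚ) (y : ℚ) h : Pt A B) ∈ Γ} =
      {x : ℤ | ∃ (y : ℤ) (h : (E A B).toAffine.Nonsingular (x : ℚ) (y : ℚ)),
        (Affine.Point.some (x : ℚ) (y : ℚ) h : Pt A B) ∈ Γ ∧
        K * (max |(A : ℝ)| |(B : ℝ)|) ^ M < max |(x : ℝ)| |(y : ℝ)|} := by
    ext x
    constructor
    · rintro ⟨y, h, hy⟩
      exact ⟨y, h, hy, (hno x y (PCU_eqn h)).trans_le (le_max_left _ _)⟩
    · rintro ⟨y, h, hy, -⟩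
      exact ⟨y, h, hy⟩
  rw [hset]
  exact hfin r A B hD Γ hr

private theorem PCU_box (N : ℕ) : {p : ℤ × ℤ | |p.1| ≤ N ∧ |p.2| ≤ N}.Finite := by
  have h : {p : ℤ × ℤ | |p.1| ≤ N ∧ |p.2| ≤ N} ⊆ (Set.Icc (-(N : ℤ)) N) ×ˢ (Set.Icc (-(N : ℤ)) N) := by
    rintro ⟨a, b⟩ ⟨ha, hb⟩
    rw [abs_le] at ha hb
    exact ⟨ha, hb⟩
  exact ((Set.finite_Icc _ _).prod (Set.finite_Icc _ _)).subset h

/-- For all but `O(H ^ (5 - δ))` of the curves `y² = x³ + A x + B` with `|A| ≤ H ^ 2`, `|B| ≤ H ^ 3`, for every `r`, every subgroup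
of rank at most `r` of the group of rational points contains at most `2 ^ (r + 1) - r - 2` pairs `(x, ± y)` of integral points. -/
theorem almost_allU (hPB : PB) (hPS : PSU) : ∃ δ : ℝ, 0 < δ ∧ ∃ K : ℝ, ∀ H : ℝ, 1 ≤ H →
    {p : ℤ × ℤ | |(p.1 : ℝ)| ≤ H ^ 2 ∧ |(p.2 : ℝ)| ≤ H ^ 3 ∧ 4 * p.1 ^ 3 + 27 * p.2 ^ 2 ≠ 0 ∧
      ∃ (r : ℕ) (Γ : AddSubgroup (Pt p.1 p.2)), Module.rank ℤ Γ ≤ r ∧
        ¬ ({x : ℤ | ∃ (y : ℤ) (h : (E p.1 p.2).toAffine.Nonsingular (x : ℚ) (y : ℚ)),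
            (Affine.Point.some (x : ℚ) (y : ℚ) h : Pt p.1 p.2) ∈ Γ}.Finite ∧
          {x : ℤ | ∃ (y : ℤ) (h : (E p.1 p.2).toAffine.Nonsingular (x : ℚ) (y : ℚ)),
            (Affine.Point.some (x : ℚ) (y : ℚ) h : Pt p.1 p.2) ∈ Γ}.ncard + r + 2 ≤
              2 ^ (r + 1))}.Finite ∧
    ({p : ℤ × ℤ | |(p.1 : ℝ)| ≤ H ^ 2 ∧ |(p.2 : ℝ)| ≤ H ^ 3 ∧ 4 * p.1 ^ 3 + 27 * p.2 ^ 2 ≠ 0 ∧
      ∃ (r : ℕ) (Γ : AddSubgroup (Pt p.1 p.2)), Module.rank ℤ Γ ≤ r ∧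
        ¬ ({x : ℤ | ∃ (y : ℤ) (h : (E p.1 p.2).toAffine.Nonsingular (x : ℚ) (y : ℚ)),
            (Affine.Point.some (x : ℚ) (y : ℚ) h : Pt p.1 p.2) ∈ Γ}.Finite ∧
          {x : ℤ | ∃ (y : ℤ) (h : (E p.1 p.2).toAffine.Nonsingular (x : ℚ) (y : ℚ)),
            (Affine.Point.some (x : ℚ) (y : ℚ) h : Pt p.1 p.2) ∈ Γ}.ncard + r + 2 ≤
              2 ^ (r + 1))}.ncard : ℝ) ≤ K * H ^ (5 - δ) := by
  obtain ⟨K₁, M, hK₁, hM, hsmall⟩ := PCU_small hPB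
  obtain ⟨δ, hδ, K₂, hPS2⟩ := hPS (1 / 2) (by norm_num)
  obtain ⟨H₀, hH₀1, hH₀⟩ := PCU_exp K₁ M hK₁
  set N : ℕ := ⌈H₀ ^ 3⌉₊ with hN
  refine ⟨min δ 5, by positivity, max K₂ 0 + ({p : ℤ × ℤ | |p.1| ≤ N ∧ |p.2| ≤ N}.ncard : ℝ), fun H hH => ?_⟩
  have hH0 : (0 : ℝ) < H := by linarith
  have hHδ : (1 : ℝ) ≤ H ^ (5 - min δ 5) :=
    Real.one_le_rpow hH (by linarith [min_le_right δ 5])
  have hHδ' : H ^ (5 - δ) ≤ H ^ (5 - min δ 5) :=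
    Real.rpow_le_rpow_of_exponent_le hH (by linarith [min_le_left δ 5])
  have hbox := PCU_box N
  set S : Set (ℤ × ℤ) := {p : ℤ × ℤ | |(p.1 : ℝ)| ≤ H ^ 2 ∧ |(p.2 : ℝ)| ≤ H ^ 3 ∧ 4 * p.1 ^ 3 + 27 * p.2 ^ 2 ≠ 0 ∧
      ∃ (r : ℕ) (Γ : AddSubgroup (Pt p.1 p.2)), Module.rank ℤ Γ ≤ r ∧
        ¬ ({x : ℤ | ∃ (y : ℤ) (h : (E p.1 p.2).toAffine.Nonsingular (x : ℚ) (y : ℚ)),
            (Affine.Point.some (x : ℚ) (y : ℚ) h : Pt p.1 p.2) ∈ Γ}.Finite ∧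
          {x : ℤ | ∃ (y : ℤ) (h : (E p.1 p.2).toAffine.Nonsingular (x : ℚ) (y : ℚ)),
            (Affine.Point.some (x : ℚ) (y : ℚ) h : Pt p.1 p.2) ∈ Γ}.ncard + r + 2 ≤
              2 ^ (r + 1))} with hS
  rcases lt_or_ge H H₀ with hlt | hge
  · have hsub : S ⊆ {p : ℤ × ℤ | |p.1| ≤ N ∧ |p.2| ≤ N} := by
      rintro p ⟨h1, h2, -⟩
      have h23 : H ^ 2 ≤ H ^ 3 := pow_le_pow_right₀ hH (by norm_num)
      have h33 : H ^ 3 ≤ H₀ ^ 3 := pow_le_pow_left₀ hH0.le hlt.le 3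
      have hc : H₀ ^ 3 ≤ (N : ℝ) := Nat.le_ceil _
      constructor
      · have : |(p.1 : ℝ)| ≤ (N : ℝ) := by linarith
        exact_mod_cast this
      · have : |(p.2 : ℝ)| ≤ (N : ℝ) := by linarith
        exact_mod_cast this
    refine ⟨hbox.subset hsub, ?_⟩
    have h1 : (S.ncard : ℝ) ≤ ({p : ℤ × ℤ | |p.1| ≤ N ∧ |p.2| ≤ N}.ncard : ℝ) := by
      exact_mod_cast Set.ncard_le_ncard hsub hbox
    have h2 : (0 : ℝ) ≤ max K₂ 0 := le_max_right _ _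
    have h3 : (0 : ℝ) ≤ ({p : ℤ × ℤ | |p.1| ≤ N ∧ |p.2| ≤ N}.ncard : ℝ) := Nat.cast_nonneg _
    nlinarith [mul_le_mul_of_nonneg_left hHδ (add_nonneg h2 h3)]
  · obtain ⟨hf, hc⟩ := hPS2 H hH
    have hsub : S ⊆ {p : ℤ × ℤ | |(p.1 : ℝ)| ≤ H ^ 2 ∧ |(p.2 : ℝ)| ≤ H ^ 3 ∧ 4 * p.1 ^ 3 + 27 * p.2 ^ 2 ≠ 0 ∧
        ∃ x y : ℤ, y ^ 2 = x ^ 3 + p.1 * x + p.2 ∧
          |(x : ℝ)| ≤ Real.exp (H ^ (1 - (1 / 2 : ℝ)))} := by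
      rintro p ⟨h1, h2, h3, r, Γ, hΓ, hnot⟩
      refine ⟨h1, h2, h3, ?_⟩
      obtain ⟨x, y, hxy, hx⟩ := hsmall r p.1 p.2 h3 Γ hΓ hnot
      refine ⟨x, y, hxy, hx.trans ?_⟩
      have h23 : H ^ 2 ≤ H ^ 3 := pow_le_pow_right₀ hH (by norm_num)
      have hm : max |(p.1 : ℝ)| |(p.2 : ℝ)| ≤ H ^ 3 := _root_.max_le (h1.trans h23) h2
      have hm0 : 0 ≤ max |(p.1 : ℝ)| |(p.2 : ℝ)| := (abs_nonneg _).trans (le_max_left _ _)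
      exact (mul_le_mul_of_nonneg_left (Real.rpow_le_rpow hm0 hm hM.le) hK₁.le).trans (hH₀ H hge)
    refine ⟨hf.subset hsub, ?_⟩
    have h1 := (Nat.cast_le (α := ℝ)).2 (Set.ncard_le_ncard hsub hf)
    have h4 : (0 : ℝ) ≤ ({p : ℤ × ℤ | |p.1| ≤ N ∧ |p.2| ≤ N}.ncard : ℝ) := Nat.cast_nonneg _
    have h5 : K₂ * H ^ (5 - δ) ≤ max K₂ 0 * H ^ (5 - min δ 5) :=
      (mul_le_mul_of_nonneg_right (le_max_left _ _) (by positivity)).trans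
        (mul_le_mul_of_nonneg_left hHδ' (le_max_right _ _))
    have h6 : 0 ≤ ({p : ℤ × ℤ | |p.1| ≤ N ∧ |p.2| ≤ N}.ncard : ℝ) * H ^ (5 - min δ 5) := by positivity
    calc (S.ncard : ℝ) ≤ K₂ * H ^ (5 - δ) := h1.trans hc
      _ ≤ _ := by rw [add_mul]; linarith

end Pool.Agent.LibHU64
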